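import Pool.Agent.H29.SL.AN

set_option autoImplicit false

namespace Pool.Agent.H29.SL

theorem pow_lt_sg (p a : ℕ) (hp : 1 ≤ p) (ha : 1 ≤ a) : p ^ a < sg p a := by
  obtain ⟨b, rfl⟩ : ∃ b, a = b + 1 := ⟨a - 1, by omega⟩
  have h1 : sg p (b + 1) = sg p b + p ^ (b + 1) := by
    unfold sg
    rw [Finset.sum_range_succ]
  have h2 := pow_le_sg p b
  have h3 : 0 < p ^ b := Nat.pos_of_ne_zero (pow_ne_zero _ (by omega))
  omega

theorem pf_AE (hI : T_CI) (hII : T_CII) (hE : T_EX) : T_AE := by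
  intro q n p0 d hp0 h7 hW0 he0 hu0
  have hp0p := Nat.prime_of_mem_primeFactors hp0
  have hq5 : 5 ≤ q := by
    have := d.hq4
    have := d.hq.two_le
    omega
  have hWS : q ^ 4 + q ^ 2 + 1 ∣ d.S := by rw [S_eq d]; exact Dvd.intro_left _ rfl
  -- `p0 ^ 2` does not divide `W`
  have hnsq : ¬ p0 ^ 2 ∣ q ^ 4 + q ^ 2 + 1 := by
    intro h2
    have ha2 : 2 ≤ d.a p0 := le_a d p0 2 hp0p (h2.trans hWS)
    rcases hII p0 q 2 (d.a p0) (d.e p0) (d.u p0) hp0p h7 (by norm_num) ha2 (by omega)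
      (by omega) h2 (d.hue p0 hp0) with h | ⟨h, _⟩
    · omega
    · rw [hu0] at h
      have h8 : 7 ^ (3 * 2) ≤ p0 ^ (3 * 2) := Nat.pow_le_pow_left h7 _
      norm_num at h8 h
      omega
  have hue0 := d.hue p0 hp0
  rw [he0, hu0, mul_one] at hue0
  have ha1 : 1 ≤ d.a p0 := le_a d p0 1 hp0p (by rw [pow_one]; exact hW0.trans hWS)
  have haev := d.haeven p0
  have ha4 : 4 ≤ d.a p0 := by
    by_contra hcon
    push Not at hcon
    have h2 : d.a p0 = 2 := by
      rcases haev with ⟨r, hr⟩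
      omega
    rw [h2] at hue0
    have h3 : sg p0 2 = p0 ^ 2 + p0 + 1 := by
      unfold sg
      simp [Finset.sum_range_succ]
      ring
    exact hE p0 q hp0p h7 hq5 hW0 (by rw [← h3]; exact hue0.symm)
  constructor
  · calc p0 ^ 4 ≤ p0 ^ d.a p0 := Nat.pow_le_pow_right hp0p.pos ha4
      _ < sg p0 (d.a p0) := pow_lt_sg p0 _ hp0p.pos ha1
      _ = q ^ 3 := hue0.symm
  · set A := (q + 1) / 2 with hA
    set V := (q ^ 4 + q ^ 2 + 1) / 3 with hV
    have hV0 : V ≠ 0 := V_pos d
    have hW3 := W_eq d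
    rw [← hV] at hW3
    have hp0V : p0 ∣ V := by
      have h1 : p0 ∣ 3 * V := by rw [← hW3.1]; exact hW0
      rcases (hp0p.dvd_mul).1 h1 with h | h
      · have := Nat.le_of_dvd (by norm_num) h
        omega
      · exact h
    have hmem : p0 ∈ V.primeFactors := Nat.mem_primeFactors.2 ⟨hp0p, hp0V, hV0⟩
    have hfac1 : V.factorization p0 = 1 := by
      have h1 : 1 ≤ V.factorization p0 := (hp0p.dvd_iff_one_le_factorization hV0).1 hp0V
      have h2 : ¬ 2 ≤ V.factorization p0 := by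
        intro h
        exact hnsq (((hp0p.pow_dvd_iff_le_factorization hV0).2 h).trans (V_dvd_W d))
      omega
    have hsum := sum_split d
    rw [← hA, ← hV] at hsum
    have hs1 : ∑ p ∈ V.primeFactors, d.e p = d.e p0 + ∑ p ∈ V.primeFactors.erase p0, d.e p :=
      (Finset.add_sum_erase _ _ hmem).symm
    set E1 := ∑ p ∈ A.primeFactors, d.e p with hE1
    set E2 := ∑ p ∈ V.primeFactors.erase p0, d.e p with hE2
    have hEE : E1 + E2 ≤ 2 := by omega
    have h1 := class_one hI d 2 (by rw [← hA, ← hE1]; omega)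
    rw [← hA] at h1
    -- class II
    have h2 : V ≤ p0 * (q ^ 2 * ∏ p ∈ V.primeFactors.erase p0, d.u p) := by
      calc V = ∏ p ∈ V.primeFactors, p ^ V.factorization p := by
            exact ((Nat.prod_factorization_pow_eq_self hV0 |> fun h => (h : V.primeFactors.prod
              (fun p => p ^ V.factorization p) = V))).symm
        _ = p0 ^ V.factorization p0 * ∏ p ∈ V.primeFactors.erase p0, p ^ V.factorization p :=
            (Finset.mul_prod_erase _ _ hmem).symm
        _ = p0 * ∏ p ∈ V.primeFactors.erase p0, p ^ V.factorization p := by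
            rw [hfac1, pow_one]
        _ ≤ p0 * ∏ p ∈ V.primeFactors.erase p0, q ^ d.e p * d.u p := by
            refine Nat.mul_le_mul le_rfl (Finset.prod_le_prod' ?_)
            intro p hp
            have hpV := Finset.mem_of_mem_erase hp
            have hpp := Nat.prime_of_mem_primeFactors hpV
            have hcV : p ^ V.factorization p ∣ V := Nat.ordProj_dvd V p
            have hca : V.factorization p ≤ d.a p := le_a d p _ hpp (hcV.trans (V_dvd_S d))
            rw [d.hue p (subV d hpV)]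
            exact (Nat.pow_le_pow_right hpp.pos hca).trans (pow_le_sg p _)
        _ = p0 * (q ^ E2 * ∏ p ∈ V.primeFactors.erase p0, d.u p) := by
            rw [Finset.prod_mul_distrib, Finset.prod_pow_eq_pow_sum]
        _ ≤ p0 * (q ^ 2 * ∏ p ∈ V.primeFactors.erase p0, d.u p) := by
            refine Nat.mul_le_mul le_rfl (Nat.mul_le_mul ?_ le_rfl)
            exact Nat.pow_le_pow_right (by omega) (by omega)
    have h3 := prod_split d
    rw [← hA, ← hV, ← Finset.mul_prod_erase _ _ hmem, hu0, one_mul] at h3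
    calc 3 ^ 4 * A * V = (3 ^ (2 + 2) * A) * V := by ring
      _ ≤ (4 ^ (2 + 2) * ∏ p ∈ A.primeFactors, d.u p) *
          (p0 * (q ^ 2 * ∏ p ∈ V.primeFactors.erase p0, d.u p)) := Nat.mul_le_mul h1 h2
      _ = 4 ^ 4 * p0 * q ^ 2 * ((∏ p ∈ A.primeFactors, d.u p) *
          ∏ p ∈ V.primeFactors.erase p0, d.u p) := by ring
      _ ≤ 4 ^ 4 * p0 * q ^ 2 * d.D := Nat.mul_le_mul le_rfl h3

end Pool.Agent.H29.SL
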