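import Pool.Agent.H29.SL.AN3

set_option autoImplicit false

namespace Pool.Agent.H29.SL

theorem pow_lt_sg' (p a : ℕ) (hp : 1 ≤ p) (ha : 1 ≤ a) : p ^ a < sg p a := by
  obtain ⟨b, rfl⟩ : ∃ b, a = b + 1 := ⟨a - 1, by omega⟩
  have h1 : sg p (b + 1) = sg p b + p ^ (b + 1) := by
    unfold sg
    rw [Finset.sum_range_succ]
  have h2 := pow_le_sg p b
  have h3 : 0 < p ^ b := Nat.pos_of_ne_zero (pow_ne_zero _ (by omega))
  omega

/-- The local bound for the other primes. -/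
theorem loc_bound (hII : T_C3) (hE1 : T_E1) (p q c a e u : ℕ) (hp : p.Prime) (h7 : 7 ≤ p)
    (hq : q.Prime) (hq4 : q % 4 = 1) (hc : 1 ≤ c) (hca : c ≤ a) (hae : Even a) (hu : Odd u)
    (he : e ≤ 2) (hW : p ^ c ∣ q ^ 4 + q ^ 2 + 1)
    (hP : p ^ c ∣ q ^ 2 + q + 1 ∨ p ^ c ∣ q ^ 2 + 1 - q)
    (hex : ¬ p ^ (a + 1) ∣ q ^ 4 + q ^ 2 + 1)
    (hue : q ^ e * u = sg p a) : (p ^ c) ^ 8 ≤ (q + 1) ^ (5 * e) * u ^ 8 := by
  have hq5 : 5 ≤ q := by
    have := hq.two_le
    omega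
  have hC3 : (p ^ c) ^ 3 ≤ u ^ 8 := by
    rcases hII p q c a e u hp h7 hq hq4 hc hca hae hu (by omega) hW hue with h | h
    · omega
    · rw [← pow_mul, mul_comm]; exact h
  have hPle : p ^ c ≤ (q + 1) ^ 2 := by
    rcases hP with h | h
    · have := Nat.le_of_dvd (by positivity) h
      nlinarith
    · have h1 : 0 < q ^ 2 + 1 - q := by
        have : q ≤ q ^ 2 := by nlinarith
        omega
      have := Nat.le_of_dvd h1 h
      have h2 : q ^ 2 + 1 - q ≤ (q + 1) ^ 2 := by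
        have : (q + 1) ^ 2 = q ^ 2 + 2 * q + 1 := by ring
        omega
      omega
  interval_cases e
  · -- e = 0
    rw [pow_zero, one_mul] at hue
    have h1 : p ^ c ≤ u := by
      rw [hue]
      exact (Nat.pow_le_pow_right hp.pos hca).trans (pow_le_sg p a)
    simpa using Nat.pow_le_pow_left h1 8
  · -- e = 1
    rcases Nat.lt_or_ge (q + 1) (p ^ c) with h | h
    · rw [pow_one] at hue
      have h1 := hE1 p q c a u hp h7 hq5 hc hca hae hW hex hue h
      calc (p ^ c) ^ 8 = ((p ^ c) ^ 2) ^ 4 := by ring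
        _ ≤ (q * u ^ 2) ^ 4 := Nat.pow_le_pow_left h1.le 4
        _ = q ^ 4 * u ^ 8 := by ring
        _ ≤ (q + 1) ^ (5 * 1) * u ^ 8 := by
            refine Nat.mul_le_mul ?_ le_rfl
            calc q ^ 4 ≤ (q + 1) ^ 4 := Nat.pow_le_pow_left (by omega) 4
              _ ≤ (q + 1) ^ (5 * 1) := Nat.pow_le_pow_right (by omega) (by norm_num)
    · calc (p ^ c) ^ 8 = (p ^ c) ^ 5 * (p ^ c) ^ 3 := by ring
        _ ≤ (q + 1) ^ 5 * u ^ 8 := Nat.mul_le_mul (Nat.pow_le_pow_left h 5) hC3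
        _ = _ := by ring
  · -- e = 2
    calc (p ^ c) ^ 8 = (p ^ c) ^ 5 * (p ^ c) ^ 3 := by ring
      _ ≤ ((q + 1) ^ 2) ^ 5 * u ^ 8 := Nat.mul_le_mul (Nat.pow_le_pow_left hPle 5) hC3
      _ = _ := by ring

/-- A prime power dividing `q ^ 4 + q ^ 2 + 1` divides one of the two factors. -/
theorem split_W (p q c : ℕ) (hp : p.Prime) (h7 : 7 ≤ p) (hq : 1 ≤ q)
    (hW : p ^ c ∣ q ^ 4 + q ^ 2 + 1) :
    p ^ c ∣ q ^ 2 + q + 1 ∨ p ^ c ∣ q ^ 2 + 1 - q := by
  have hle : q ≤ q ^ 2 + 1 := by nlinarith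
  have hfac : q ^ 4 + q ^ 2 + 1 = (q ^ 2 + q + 1) * (q ^ 2 + 1 - q) := by
    zify [hle]
    ring
  rw [hfac] at hW
  by_cases h1 : p ∣ q ^ 2 + q + 1
  · left
    have h2 : ¬ p ∣ q ^ 2 + 1 - q := by
      intro h3
      have h4 : p ∣ 2 * q := by
        have : 2 * q = (q ^ 2 + q + 1) - (q ^ 2 + 1 - q) := by omega
        rw [this]
        exact Nat.dvd_sub h1 h3
      rcases (hp.dvd_mul).1 h4 with h5 | h5
      · have := Nat.le_of_dvd (by norm_num) h5
        omega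
      · have h6 : p ∣ q ^ 2 + q := by
          have : q ^ 2 + q = q * (q + 1) := by ring
          rw [this]; exact Dvd.dvd.mul_right h5 _
        have h7' : p ∣ 1 := (Nat.dvd_add_right h6).1 h1
        exact hp.one_lt.ne' (Nat.dvd_one.1 h7')
    exact (Nat.Coprime.pow_left c ((hp.coprime_iff_not_dvd).2 h2)).dvd_of_dvd_mul_right hW
  · right
    exact (Nat.Coprime.pow_left c ((hp.coprime_iff_not_dvd).2 h1)).dvd_of_dvd_mul_left hW

theorem pf_AE3 (hI : T_CI) (hII : T_C3) (hE : T_EX) (hE1 : T_E1) : T_AE3 := by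
  intro q n p0 d hp0 h7 hW0 he0 hu0
  have hp0p := Nat.prime_of_mem_primeFactors hp0
  have hq5 : 5 ≤ q := by
    have := d.hq4
    have := d.hq.two_le
    omega
  have hWS : q ^ 4 + q ^ 2 + 1 ∣ d.S := by rw [S_eq d]; exact Dvd.intro_left _ rfl
  -- `p0 ^ 2` does not divide `W`
  have hnsq : ¬ p0 ^ 2 ∣ q ^ 4 + q ^ 2 + 1 := by
    intro h2
    have ha2 : 2 ≤ d.a p0 := le_a d p0 2 hp0p (h2.trans hWS)
    rcases hII p0 q 2 (d.a p0) (d.e p0) (d.u p0) hp0p h7 d.hq d.hq4 (by norm_num) ha2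
      (d.haeven p0) (d.huodd p0 hp0) (by omega) h2 (d.hue p0 hp0) with h | h
    · omega
    · rw [hu0] at h
      have h8 : 7 ^ (3 * 2) ≤ p0 ^ (3 * 2) := Nat.pow_le_pow_left h7 _
      norm_num at h8 h
      omega
  have hue0 := d.hue p0 hp0
  rw [he0, hu0, mul_one] at hue0
  have ha1 : 1 ≤ d.a p0 := le_a d p0 1 hp0p (by rw [pow_one]; exact hW0.trans hWS)
  have haev := d.haeven p0
  have ha4 : 4 ≤ d.a p0 := by
    by_contra hcon
    push Not at hcon
    have h2 : d.a p0 = 2 := by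
      rcases haev with ⟨r, hr⟩
      omega
    rw [h2] at hue0
    have h3 : sg p0 2 = p0 ^ 2 + p0 + 1 := by
      unfold sg
      simp [Finset.sum_range_succ]
      ring
    exact hE p0 q hp0p h7 hq5 hW0 (by rw [← h3]; exact hue0.symm)
  constructor
  · calc p0 ^ 4 ≤ p0 ^ d.a p0 := Nat.pow_le_pow_right hp0p.pos ha4
      _ < sg p0 (d.a p0) := pow_lt_sg' p0 _ hp0p.pos ha1
      _ = q ^ 3 := hue0.symm
  · set A := (q + 1) / 2 with hA
    set V := (q ^ 4 + q ^ 2 + 1) / 3 with hV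
    have hV0 : V ≠ 0 := V_pos d
    have hW3 := W_eq d
    rw [← hV] at hW3
    have hp0V : p0 ∣ V := by
      have h1 : p0 ∣ 3 * V := by rw [← hW3.1]; exact hW0
      rcases (hp0p.dvd_mul).1 h1 with h | h
      · have := Nat.le_of_dvd (by norm_num) h
        omega
      · exact h
    have hmem : p0 ∈ V.primeFactors := Nat.mem_primeFactors.2 ⟨hp0p, hp0V, hV0⟩
    have hfac1 : V.factorization p0 = 1 := by
      have h1 : 1 ≤ V.factorization p0 := (hp0p.dvd_iff_one_le_factorization hV0).1 hp0V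
      have h2 : ¬ 2 ≤ V.factorization p0 := by
        intro h
        exact hnsq (((hp0p.pow_dvd_iff_le_factorization hV0).2 h).trans (V_dvd_W d))
      omega
    have hsum := sum_split d
    rw [← hA, ← hV] at hsum
    have hs1 : ∑ p ∈ V.primeFactors, d.e p = d.e p0 + ∑ p ∈ V.primeFactors.erase p0, d.e p :=
      (Finset.add_sum_erase _ _ hmem).symm
    set E1 := ∑ p ∈ A.primeFactors, d.e p with hE1'
    set E2 := ∑ p ∈ V.primeFactors.erase p0, d.e p with hE2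
    have hEE : E1 + E2 ≤ 2 := by omega
    have h1 := class_one hI d 2 (by rw [← hA, ← hE1']; omega)
    rw [← hA] at h1
    have h8 : 0 < q + 1 := by omega
    -- class II
    have hloc : ∀ p ∈ V.primeFactors.erase p0,
        (p ^ V.factorization p) ^ 8 ≤ (q + 1) ^ (5 * d.e p) * (d.u p) ^ 8 := by
      intro p hp
      have hpV := Finset.mem_of_mem_erase hp
      have hpn := subV d hpV
      have hpp := Nat.prime_of_mem_primeFactors hpV
      have hpd := Nat.dvd_of_mem_primeFactors hpV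
      have h7p := seven_le d p hpp hpd
      have hc1 : 1 ≤ V.factorization p := (hpp.dvd_iff_one_le_factorization hV0).1 hpd
      have hcV : p ^ V.factorization p ∣ V := Nat.ordProj_dvd V p
      have hcW : p ^ V.factorization p ∣ q ^ 4 + q ^ 2 + 1 := hcV.trans (V_dvd_W d)
      have hca : V.factorization p ≤ d.a p := le_a d p _ hpp (hcV.trans (V_dvd_S d))
      have hep : d.e p ≤ 2 := by
        have : d.e p ≤ E2 := Finset.single_le_sum (f := d.e) (fun _ _ => Nat.zero_le _) hp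
        omega
      have hex : ¬ p ^ (d.a p + 1) ∣ q ^ 4 + q ^ 2 + 1 := by
        intro h
        have := le_a d p _ hpp (h.trans hWS)
        omega
      exact loc_bound hII hE1 p q _ (d.a p) (d.e p) (d.u p) hpp h7p d.hq d.hq4 hc1 hca
        (d.haeven p) (d.huodd p hpn) hep hcW (split_W p q _ hpp h7p (by omega) hcW) hex
        (d.hue p hpn)
    have h2 : V ^ 8 ≤ p0 ^ 8 * ((q + 1) ^ 10 * (∏ p ∈ V.primeFactors.erase p0, d.u p) ^ 8) := by
      calc V ^ 8 = (∏ p ∈ V.primeFactors, p ^ V.factorization p) ^ 8 := by rw [prod_self hV0]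
        _ = (p0 ^ V.factorization p0 *
            ∏ p ∈ V.primeFactors.erase p0, p ^ V.factorization p) ^ 8 := by
            rw [Finset.mul_prod_erase _ (fun p => p ^ V.factorization p) hmem]
        _ = p0 ^ 8 * ∏ p ∈ V.primeFactors.erase p0, (p ^ V.factorization p) ^ 8 := by
            rw [hfac1, pow_one, mul_pow, Finset.prod_pow]
        _ ≤ p0 ^ 8 * ∏ p ∈ V.primeFactors.erase p0, (q + 1) ^ (5 * d.e p) * (d.u p) ^ 8 :=
            Nat.mul_le_mul le_rfl (Finset.prod_le_prod' hloc)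
        _ = p0 ^ 8 * ((q + 1) ^ (5 * E2) * (∏ p ∈ V.primeFactors.erase p0, d.u p) ^ 8) := by
            rw [Finset.prod_mul_distrib, Finset.prod_pow_eq_pow_sum, Finset.prod_pow,
              ← Finset.mul_sum]
        _ ≤ p0 ^ 8 * ((q + 1) ^ 10 * (∏ p ∈ V.primeFactors.erase p0, d.u p) ^ 8) := by
            refine Nat.mul_le_mul le_rfl (Nat.mul_le_mul ?_ le_rfl)
            exact Nat.pow_le_pow_right h8 (by omega)
    have h3 := prod_split d
    rw [← hA, ← hV, ← Finset.mul_prod_erase _ _ hmem, hu0, one_mul] at h3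
    calc 3 ^ 32 * A ^ 8 * V ^ 8 = (3 ^ (2 + 2) * A) ^ 8 * V ^ 8 := by ring
      _ ≤ (4 ^ (2 + 2) * ∏ p ∈ A.primeFactors, d.u p) ^ 8 *
          (p0 ^ 8 * ((q + 1) ^ 10 * (∏ p ∈ V.primeFactors.erase p0, d.u p) ^ 8)) :=
          Nat.mul_le_mul (Nat.pow_le_pow_left h1 8) h2
      _ = 4 ^ 32 * p0 ^ 8 * (q + 1) ^ 10 * ((∏ p ∈ A.primeFactors, d.u p) *
          ∏ p ∈ V.primeFactors.erase p0, d.u p) ^ 8 := by ring
      _ ≤ 4 ^ 32 * p0 ^ 8 * (q + 1) ^ 10 * d.D ^ 8 :=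
          Nat.mul_le_mul le_rfl (Nat.pow_le_pow_left h3 8)

end Pool.Agent.H29.SL
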