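import Pool.Agent.H29.SL.T1

set_option autoImplicit false

namespace Pool.Agent.H29.SL

/-- Arithmetic of `S` for `k = 5`. -/
theorem S_eq {q n : ℕ} (d : Dat q 5 n) :
    d.S = ((q + 1) / 2) * (q ^ 4 + q ^ 2 + 1) := by
  have h4 := d.hq4
  obtain ⟨A, hA⟩ : ∃ A, q + 1 = 2 * A := ⟨(q + 1) / 2, by omega⟩
  have hA2 : (q + 1) / 2 = A := by omega
  rw [hA2]
  have h1 := d.hS
  have h2 : sg q 5 = (q + 1) * (q ^ 4 + q ^ 2 + 1) := by
    unfold sg
    simp [Finset.sum_range_succ]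
    ring
  rw [h2, hA] at h1
  have : 2 * d.S = 2 * (A * (q ^ 4 + q ^ 2 + 1)) := by rw [← h1]; ring
  omega

theorem q_ne_three {q k n : ℕ} (d : Dat q k n) : q % 3 ≠ 0 := by
  intro h
  have h1 : 3 ∣ q := Nat.dvd_of_mod_eq_zero h
  have h2 := (Nat.prime_dvd_prime_iff_eq Nat.prime_three d.hq).1 h1
  have := d.hq4
  omega

theorem W_mod {q k n : ℕ} (d : Dat q k n) : (q ^ 4 + q ^ 2 + 1) % 9 = 3 := by
  have h := q_ne_three d
  have h9 : q % 9 = 1 ∨ q % 9 = 2 ∨ q % 9 = 4 ∨ q % 9 = 5 ∨ q % 9 = 7 ∨ q % 9 = 8 := by omega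
  rcases h9 with h | h | h | h | h | h <;> simp [Nat.add_mod, Nat.pow_mod, h]

theorem W_eq {q k n : ℕ} (d : Dat q k n) :
    q ^ 4 + q ^ 2 + 1 = 3 * ((q ^ 4 + q ^ 2 + 1) / 3) ∧ ((q ^ 4 + q ^ 2 + 1) / 3) % 3 = 1 := by
  have := W_mod d
  omega

/-- Prime divisors of `W / 3` are at least `7`. -/
theorem seven_le {q k n : ℕ} (d : Dat q k n) (p : ℕ) (hp : p.Prime)
    (h : p ∣ (q ^ 4 + q ^ 2 + 1) / 3) : 7 ≤ p := by
  obtain ⟨h1, h2⟩ := W_eq d
  have hW : p ∣ q ^ 4 + q ^ 2 + 1 := by rw [h1]; exact Dvd.dvd.mul_left h _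
  by_contra hcon
  push Not at hcon
  have h2' := hp.two_le
  interval_cases p
  · -- p = 2
    have h4 : q % 2 = 1 := by have := d.hq4; omega
    have : (q ^ 4 + q ^ 2 + 1) % 2 = 1 := by simp [Nat.add_mod, Nat.pow_mod, h4]
    omega
  · omega
  · exact absurd hp (by norm_num)
  · have h5 : q % 5 = 0 ∨ q % 5 = 1 ∨ q % 5 = 2 ∨ q % 5 = 3 ∨ q % 5 = 4 := by omega
    have : (q ^ 4 + q ^ 2 + 1) % 5 ≠ 0 := by
      rcases h5 with h | h | h | h | h <;> simp [Nat.add_mod, Nat.pow_mod, h]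
    omega
  · exact absurd hp (by norm_num)

theorem disj {q n : ℕ} (d : Dat q 5 n) :
    Disjoint ((q + 1) / 2).primeFactors ((q ^ 4 + q ^ 2 + 1) / 3).primeFactors := by
  rw [Finset.disjoint_left]
  intro p hp1 hp2
  have hp := Nat.prime_of_mem_primeFactors hp1
  have h7 := seven_le d p hp (Nat.dvd_of_mem_primeFactors hp2)
  have hd1 := Nat.dvd_of_mem_primeFactors hp1
  have hd2 := Nat.dvd_of_mem_primeFactors hp2
  have hW : p ∣ q ^ 4 + q ^ 2 + 1 := by rw [(W_eq d).1]; exact Dvd.dvd.mul_left hd2 _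
  have h1 : p ∣ q + 1 := by
    have h4 := d.hq4
    have : q + 1 = 2 * ((q + 1) / 2) := by omega
    rw [this]; exact Dvd.dvd.mul_left hd1 _
  have h2 : (p : ℤ) ∣ 3 := by
    have h3 : (p : ℤ) ∣ (q : ℤ) + 1 := by exact_mod_cast h1
    have h4 : (p : ℤ) ∣ (q : ℤ) ^ 4 + (q : ℤ) ^ 2 + 1 := by exact_mod_cast hW
    have h5 : (3 : ℤ) = ((q : ℤ) ^ 4 + (q : ℤ) ^ 2 + 1) -
        ((q : ℤ) + 1) * ((q : ℤ) ^ 3 - (q : ℤ) ^ 2 + 2 * q - 2) := by ring
    rw [h5]
    exact dvd_sub h4 (Dvd.dvd.mul_right h3 _)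
  have h6 : p ∣ 3 := by exact_mod_cast h2
  have := Nat.le_of_dvd (by norm_num) h6
  omega

theorem A_pos {q k n : ℕ} (d : Dat q k n) : (q + 1) / 2 ≠ 0 := by
  have := d.hq.two_le
  omega

theorem V_pos {q k n : ℕ} (d : Dat q k n) : (q ^ 4 + q ^ 2 + 1) / 3 ≠ 0 := by
  have := (W_eq d).2
  omega

theorem subA {q n : ℕ} (d : Dat q 5 n) : ((q + 1) / 2).primeFactors ⊆ n.primeFactors := by
  intro p hp
  refine mem_of_dvd d p (Nat.prime_of_mem_primeFactors hp) ?_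
  rw [S_eq d]
  exact Dvd.dvd.mul_right (Nat.dvd_of_mem_primeFactors hp) _

theorem V_dvd_W {q k n : ℕ} (d : Dat q k n) :
    (q ^ 4 + q ^ 2 + 1) / 3 ∣ q ^ 4 + q ^ 2 + 1 :=
  ⟨3, by have := (W_eq d).1; omega⟩

theorem V_dvd_S {q n : ℕ} (d : Dat q 5 n) : (q ^ 4 + q ^ 2 + 1) / 3 ∣ d.S := by
  rw [S_eq d]
  exact Dvd.dvd.mul_left (V_dvd_W d) _

theorem subV {q n : ℕ} (d : Dat q 5 n) :
    ((q ^ 4 + q ^ 2 + 1) / 3).primeFactors ⊆ n.primeFactors := by
  intro p hp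
  exact mem_of_dvd d p (Nat.prime_of_mem_primeFactors hp)
    ((Nat.dvd_of_mem_primeFactors hp).trans (V_dvd_S d))

/-- Class I. -/
theorem class_one (hI : T_CI) {q n : ℕ} (d : Dat q 5 n) (T : ℕ)
    (hT : ∑ p ∈ ((q + 1) / 2).primeFactors, d.e p ≤ T) :
    3 ^ (T + 2) * ((q + 1) / 2) ≤
      4 ^ (T + 2) * ∏ p ∈ ((q + 1) / 2).primeFactors, d.u p := by
  set A := (q + 1) / 2 with hA
  have hA0 : A ≠ 0 := A_pos d
  have hqA : q + 1 = 2 * A := by have := d.hq4; omega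
  set δ : ℕ → ℕ := fun p => if p = 3 then 2 else 0 with hδ
  have hsub : A.primeFactors ⊆ n.primeFactors := subA d
  have hloc : ∀ p ∈ A.primeFactors,
      3 ^ (d.e p + δ p) * p ^ A.factorization p ≤ 4 ^ (d.e p + δ p) * d.u p := by
    intro p hp
    have hpp := Nat.prime_of_mem_primeFactors hp
    have hpd := Nat.dvd_of_mem_primeFactors hp
    have hc1 : 1 ≤ A.factorization p := (hpp.dvd_iff_one_le_factorization hA0).1 hpd
    have hcA : p ^ A.factorization p ∣ A := Nat.ordProj_dvd A p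
    have hca : A.factorization p ≤ d.a p := by
      refine le_a d p _ hpp ?_
      rw [S_eq d]
      exact Dvd.dvd.mul_right hcA _
    have hcq : p ^ A.factorization p ∣ q + 1 := by rw [hqA]; exact Dvd.dvd.mul_left hcA _
    obtain ⟨h1, h2⟩ := hI p q (A.factorization p) (d.a p) (d.e p) (d.u p) hpp
      (p_odd d p (hsub hp)) hc1 hca (d.haeven p) hcq (d.hue p (hsub hp))
    by_cases h3 : p = 3
    · have := h2 h3
      simp only [hδ, h3, if_true] at this ⊢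
      exact this
    · have := h1 h3
      simp only [hδ, h3, if_false, add_zero]
      exact this
  have hprod : 3 ^ (∑ p ∈ A.primeFactors, (d.e p + δ p)) * A ≤
      4 ^ (∑ p ∈ A.primeFactors, (d.e p + δ p)) * ∏ p ∈ A.primeFactors, d.u p := by
    calc 3 ^ (∑ p ∈ A.primeFactors, (d.e p + δ p)) * A
        = 3 ^ (∑ p ∈ A.primeFactors, (d.e p + δ p)) *
            ∏ p ∈ A.primeFactors, p ^ A.factorization p := by
          rw [Nat.prod_factorization_pow_eq_self hA0 |> fun h => (h : A.primeFactors.prod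
            (fun p => p ^ A.factorization p) = A)]
      _ = ∏ p ∈ A.primeFactors, 3 ^ (d.e p + δ p) * p ^ A.factorization p := by
          rw [Finset.prod_mul_distrib, Finset.prod_pow_eq_pow_sum]
      _ ≤ ∏ p ∈ A.primeFactors, 4 ^ (d.e p + δ p) * d.u p := Finset.prod_le_prod' hloc
      _ = _ := by rw [Finset.prod_mul_distrib, Finset.prod_pow_eq_pow_sum]
  have hδsum : ∑ p ∈ A.primeFactors, δ p ≤ 2 := by
    rw [hδ, Finset.sum_ite_eq']
    split_ifs <;> omega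
  have hle : ∑ p ∈ A.primeFactors, (d.e p + δ p) ≤ T + 2 := by
    rw [Finset.sum_add_distrib]; omega
  obtain ⟨r, hr⟩ := Nat.exists_eq_add_of_le hle
  rw [hr, pow_add, pow_add]
  set s := ∑ p ∈ A.primeFactors, (d.e p + δ p)
  calc 3 ^ s * 3 ^ r * A = 3 ^ r * (3 ^ s * A) := by ring
    _ ≤ 4 ^ r * (4 ^ s * ∏ p ∈ A.primeFactors, d.u p) :=
        Nat.mul_le_mul (Nat.pow_le_pow_left (by norm_num) r) hprod
    _ = _ := by ring

theorem sum_split {q n : ℕ} (d : Dat q 5 n) :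
    ∑ p ∈ ((q + 1) / 2).primeFactors, d.e p +
      ∑ p ∈ ((q ^ 4 + q ^ 2 + 1) / 3).primeFactors, d.e p ≤ 5 := by
  rw [← Finset.sum_union (disj d)]
  calc _ ≤ ∑ p ∈ n.primeFactors, d.e p :=
        Finset.sum_le_sum_of_subset (Finset.union_subset (subA d) (subV d))
    _ = 5 := d.hsum

theorem prod_split {q n : ℕ} (d : Dat q 5 n) :
    (∏ p ∈ ((q + 1) / 2).primeFactors, d.u p) *
      ∏ p ∈ ((q ^ 4 + q ^ 2 + 1) / 3).primeFactors, d.u p ≤ d.D := by
  rw [← Finset.prod_union (disj d)]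
  exact prod_u_le d _ (Finset.union_subset (subA d) (subV d))

theorem pf_AN (hI : T_CI) (hII : T_CII) : T_AN := by
  intro q n d hne
  have h1 := class_one hI d 5 (by have := sum_split d; omega)
  set A := (q + 1) / 2 with hA
  set V := (q ^ 4 + q ^ 2 + 1) / 3 with hV
  have hV0 : V ≠ 0 := V_pos d
  set f : ℕ → ℕ := fun p => if p = 7 then 684 else 1 with hf
  have hsub : V.primeFactors ⊆ n.primeFactors := subV d
  have hloc : ∀ p ∈ V.primeFactors, p ^ (3 * V.factorization p) ≤ f p * (d.u p) ^ 10 := by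
    intro p hp
    have hpp := Nat.prime_of_mem_primeFactors hp
    have hpd := Nat.dvd_of_mem_primeFactors hp
    have h7 := seven_le d p hpp hpd
    have hc1 : 1 ≤ V.factorization p := (hpp.dvd_iff_one_le_factorization hV0).1 hpd
    have hcV : p ^ V.factorization p ∣ V := Nat.ordProj_dvd V p
    have hcW : p ^ V.factorization p ∣ q ^ 4 + q ^ 2 + 1 := hcV.trans (V_dvd_W d)
    have hca : V.factorization p ≤ d.a p := le_a d p _ hpp (hcV.trans (V_dvd_S d))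
    have he5 : d.e p ≤ 5 :=
      (Finset.single_le_sum (f := d.e) (fun _ _ => Nat.zero_le _) (hsub hp)).trans_eq d.hsum
    rcases hII p q (V.factorization p) (d.a p) (d.e p) (d.u p) hpp h7 hc1 hca
      (u_pos d p (hsub hp)) he5 hcW (d.hue p (hsub hp)) with h | ⟨h2, h3⟩
    · exfalso
      exact hne p (hsub hp) h7 (hpd.trans (V_dvd_W d)) ⟨h.2.1, h.2.2⟩
    · by_cases h4 : p = 7
      · simp only [hf, h4, if_true]
        rw [h4] at h2
        exact h2
      · simp only [hf, h4, if_false, one_mul]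
        exact h3 h4
  have h2 : V ^ 3 ≤ 684 * (∏ p ∈ V.primeFactors, d.u p) ^ 10 := by
    calc V ^ 3 = (∏ p ∈ V.primeFactors, p ^ V.factorization p) ^ 3 := by
          rw [Nat.prod_factorization_pow_eq_self hV0 |> fun h => (h : V.primeFactors.prod
            (fun p => p ^ V.factorization p) = V)]
      _ = ∏ p ∈ V.primeFactors, p ^ (3 * V.factorization p) := by
          rw [← Finset.prod_pow]
          refine Finset.prod_congr rfl (fun p _ => ?_)
          rw [← pow_mul, mul_comm]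
      _ ≤ ∏ p ∈ V.primeFactors, f p * (d.u p) ^ 10 := Finset.prod_le_prod' hloc
      _ = (∏ p ∈ V.primeFactors, f p) * (∏ p ∈ V.primeFactors, d.u p) ^ 10 := by
          rw [Finset.prod_mul_distrib, Finset.prod_pow]
      _ ≤ 684 * (∏ p ∈ V.primeFactors, d.u p) ^ 10 := by
          refine Nat.mul_le_mul ?_ le_rfl
          rw [hf, Finset.prod_ite_eq']
          split_ifs <;> norm_num
  have h3 := prod_split d
  rw [← hA, ← hV] at h3
  calc 3 ^ 70 * A ^ 10 * V ^ 3 = (3 ^ (5 + 2) * A) ^ 10 * V ^ 3 := by ring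
    _ ≤ (4 ^ (5 + 2) * ∏ p ∈ A.primeFactors, d.u p) ^ 10 *
        (684 * (∏ p ∈ V.primeFactors, d.u p) ^ 10) :=
        Nat.mul_le_mul (Nat.pow_le_pow_left h1 10) h2
    _ = 684 * 4 ^ 70 * ((∏ p ∈ A.primeFactors, d.u p) *
        ∏ p ∈ V.primeFactors, d.u p) ^ 10 := by ring
    _ ≤ 684 * 4 ^ 70 * d.D ^ 10 := Nat.mul_le_mul le_rfl (Nat.pow_le_pow_left h3 10)

end Pool.Agent.H29.SL
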