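import Pool.Agent.H29.SL.Targets

/-!
Second wave: `k ≠ 1` implies `q ^ 15 ≤ 7 ^ 4 * n ^ 4`.
-/

set_option autoImplicit false

namespace Pool.Agent.H29.SL

/-- The cofactor is not `1`: `X ^ 2 ± X + 1 = p ^ c` is impossible if `q ^ e X + 1 = p ^ (a + 1)`
with `a ≥ c` even, `e ≤ 5` and `q` prime. -/
def T_W1 : Prop := ∀ p q c a e X : ℕ, p.Prime → q.Prime → 5 ≤ q → 7 ≤ p → 1 ≤ c → c ≤ a →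
  Even a → 1 ≤ e → e ≤ 5 → p - 1 ≤ X → q ^ e * X + 1 = p ^ (a + 1) →
  X ^ 2 + X + 1 ≠ p ^ c ∧ X ^ 2 + 1 ≠ p ^ c + X

/-- Case `c = 1`. -/
def T_M1 : Prop := ∀ p u X : ℕ, p.Prime → 7 ≤ p → Odd u → X = (p - 1) * u →
  (p ∣ X ^ 2 + X + 1 ∨ p ∣ X ^ 2 + 1 - X) → p ^ 3 ≤ u ^ 8

/-- Case `c = 2`. -/
def T_M2 : Prop := ∀ p u X : ℕ, p.Prime → 7 ≤ p → X = (p - 1) * u →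
  (p ^ 2 ∣ X ^ 2 + X + 1 ∨ p ^ 2 ∣ X ^ 2 + 1 - X) → (p = 7 ∧ u = 3) ∨ p ^ 6 ≤ u ^ 8

/-- Case `c = 3`. -/
def T_M3 : Prop := ∀ p u X : ℕ, p.Prime → 7 ≤ p → X = (p - 1) * u →
  (p ^ 3 ∣ X ^ 2 + X + 1 ∨ p ^ 3 ∣ X ^ 2 + 1 - X) → (p = 7 ∧ u = 3) ∨ p ^ 9 ≤ u ^ 8

/-- Case `c ≥ 4`, the cofactor being different from `1`. -/
def T_M4 : Prop := ∀ p c u X : ℕ, p.Prime → 7 ≤ p → 4 ≤ c → X = (p - 1) * u →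
  X ^ 2 + X + 1 ≠ p ^ c → X ^ 2 + 1 ≠ p ^ c + X →
  (p ^ c ∣ X ^ 2 + X + 1 ∨ p ^ c ∣ X ^ 2 + 1 - X) → p ^ (3 * c) ≤ u ^ 8

/-- `p = 7`, `u = 3` does not occur. -/
def T_X18 : Prop := ∀ q e a : ℕ, q.Prime → q % 4 = 1 → Even a → q ^ e * 18 + 1 ≠ 7 ^ (a + 1)

/-- Assembly. -/
def T_L3 : Prop := ∀ p q c a e u : ℕ, p.Prime → 7 ≤ p → q.Prime → q % 4 = 1 → 1 ≤ c → c ≤ a →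
  Even a → Odd u → 1 ≤ e → e ≤ 5 → p ^ c ∣ ((p - 1) * u) ^ 4 + ((p - 1) * u) ^ 2 + 1 →
  q ^ e * ((p - 1) * u) + 1 = p ^ (a + 1) → p ^ (3 * c) ≤ u ^ 8

/-- Class II: `p ^ c ∣ q ^ 4 + q ^ 2 + 1`, `p ≥ 7`. -/
def T_C3 : Prop := ∀ p q c a e u : ℕ, p.Prime → 7 ≤ p → q.Prime → q % 4 = 1 → 1 ≤ c → c ≤ a →
  Even a → Odd u → e ≤ 5 → p ^ c ∣ q ^ 4 + q ^ 2 + 1 → q ^ e * u = sg p a →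
  (c = 1 ∧ e = 3 ∧ u = 1) ∨ p ^ (3 * c) ≤ u ^ 8

/-- Class II, `e = 1` and `p ^ c > q + 1`. -/
def T_E1 : Prop := ∀ p q c a u : ℕ, p.Prime → 7 ≤ p → 5 ≤ q → 1 ≤ c → c ≤ a →
  Even a → p ^ c ∣ q ^ 4 + q ^ 2 + 1 → ¬ p ^ (a + 1) ∣ q ^ 4 + q ^ 2 + 1 →
  q * u = sg p a → q + 1 < p ^ c → (p ^ c) ^ 2 < q * u ^ 2

/-- Non-exceptional case of `k = 5`. -/
def T_AN3 : Prop := ∀ (q n : ℕ) (d : Dat q 5 n),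
  (∀ p ∈ n.primeFactors, 7 ≤ p → p ∣ q ^ 4 + q ^ 2 + 1 → ¬ (d.e p = 3 ∧ d.u p = 1)) →
  3 ^ 56 * ((q + 1) / 2) ^ 8 * ((q ^ 4 + q ^ 2 + 1) / 3) ^ 3 ≤ 4 ^ 56 * d.D ^ 8

/-- Exceptional case of `k = 5`. -/
def T_AE3 : Prop := ∀ (q n p0 : ℕ) (d : Dat q 5 n), p0 ∈ n.primeFactors → 7 ≤ p0 →
  p0 ∣ q ^ 4 + q ^ 2 + 1 → d.e p0 = 3 → d.u p0 = 1 →
  p0 ^ 4 < q ^ 3 ∧
  3 ^ 32 * ((q + 1) / 2) ^ 8 * ((q ^ 4 + q ^ 2 + 1) / 3) ^ 8 ≤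
    4 ^ 32 * p0 ^ 8 * (q + 1) ^ 10 * d.D ^ 8

def T_T3 : Prop := ∀ q k n : ℕ, Dat q k n → k ≠ 1 → q ^ 15 ≤ 7 ^ 4 * n ^ 4

end Pool.Agent.H29.SL
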