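import Pool.Agent.H29.SL.AN
import Pool.Agent.H29.SL.Targets2

set_option autoImplicit false

namespace Pool.Agent.H29.SL

theorem prod_self {V : ℕ} (hV : V ≠ 0) :
    ∏ p ∈ V.primeFactors, p ^ V.factorization p = V :=
  Nat.prod_factorization_pow_eq_self hV

theorem e_le {q n : ℕ} (d : Dat q 5 n) (p : ℕ) (hp : p ∈ n.primeFactors) : d.e p ≤ 5 :=
  (Finset.single_le_sum (f := d.e) (fun _ _ => Nat.zero_le _) hp).trans_eq d.hsum

theorem pf_AN3 (hI : T_CI) (hII : T_C3) : T_AN3 := by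
  intro q n d hne
  have h1 := class_one hI d 5 (by have := sum_split d; omega)
  set A := (q + 1) / 2 with hA
  set V := (q ^ 4 + q ^ 2 + 1) / 3 with hV
  have hV0 : V ≠ 0 := V_pos d
  have hsub : V.primeFactors ⊆ n.primeFactors := subV d
  have hloc : ∀ p ∈ V.primeFactors, p ^ (3 * V.factorization p) ≤ (d.u p) ^ 8 := by
    intro p hp
    have hpp := Nat.prime_of_mem_primeFactors hp
    have hpd := Nat.dvd_of_mem_primeFactors hp
    have h7 := seven_le d p hpp hpd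
    have hc1 : 1 ≤ V.factorization p := (hpp.dvd_iff_one_le_factorization hV0).1 hpd
    have hcV : p ^ V.factorization p ∣ V := Nat.ordProj_dvd V p
    have hcW : p ^ V.factorization p ∣ q ^ 4 + q ^ 2 + 1 := hcV.trans (V_dvd_W d)
    have hca : V.factorization p ≤ d.a p := le_a d p _ hpp (hcV.trans (V_dvd_S d))
    rcases hII p q (V.factorization p) (d.a p) (d.e p) (d.u p) hpp h7 d.hq d.hq4 hc1 hca
      (d.haeven p) (d.huodd p (hsub hp)) (e_le d p (hsub hp)) hcW (d.hue p (hsub hp)) with h | h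
    · exfalso
      exact hne p (hsub hp) h7 (hpd.trans (V_dvd_W d)) ⟨h.2.1, h.2.2⟩
    · exact h
  have h2 : V ^ 3 ≤ (∏ p ∈ V.primeFactors, d.u p) ^ 8 := by
    calc V ^ 3 = (∏ p ∈ V.primeFactors, p ^ V.factorization p) ^ 3 := by rw [prod_self hV0]
      _ = ∏ p ∈ V.primeFactors, p ^ (3 * V.factorization p) := by
          rw [← Finset.prod_pow]
          refine Finset.prod_congr rfl (fun p _ => ?_)
          rw [← pow_mul, mul_comm]
      _ ≤ ∏ p ∈ V.primeFactors, (d.u p) ^ 8 := Finset.prod_le_prod' hloc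
      _ = (∏ p ∈ V.primeFactors, d.u p) ^ 8 := Finset.prod_pow _ _ _
  have h3 := prod_split d
  rw [← hA, ← hV] at h3
  calc 3 ^ 56 * A ^ 8 * V ^ 3 = (3 ^ (5 + 2) * A) ^ 8 * V ^ 3 := by ring
    _ ≤ (4 ^ (5 + 2) * ∏ p ∈ A.primeFactors, d.u p) ^ 8 *
        (∏ p ∈ V.primeFactors, d.u p) ^ 8 :=
        Nat.mul_le_mul (Nat.pow_le_pow_left h1 8) h2
    _ = 4 ^ 56 * ((∏ p ∈ A.primeFactors, d.u p) *
        ∏ p ∈ V.primeFactors, d.u p) ^ 8 := by ring
    _ ≤ 4 ^ 56 * d.D ^ 8 := Nat.mul_le_mul le_rfl (Nat.pow_le_pow_left h3 8)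

end Pool.Agent.H29.SL
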