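import Pool.Agent.H20.SL.Basic

/-!
# Module CL of MP_bff2e5_gt: from Lindelof families of functions to Lindelof families of compact open sets
-/

set_option autoImplicit false

open Topology Set Filter

namespace Pool.Agent.H29.SL

open Pool.Agent.H20.SL

variable {T : Type} [PartialOrder T]

/-- the inclusion of the tree -/
def em (x : T) : XT T := OnePoint.some (X := TT T) x

/-- initial segments -/
def dn (t : T) : Set (TT T) := {x : T | x ≤ t}

theorem isOpen_dn (t : T) : IsOpen (dn t) := by
  intro t' ht'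
  refine ⟨∅, by simp, fun x hx _ => ?_⟩
  exact le_trans hx ht'

/-- the set where a continuous function is far from its value at infinity is compact -/
theorem far_cover {f : XT T → ℝ} (hf : Continuous f) {b : ℝ} (hb : 0 < b) :
    ∃ E : Finset T, ∀ x : T, b ≤ |f (em x) - f OnePoint.infty| → ∃ t ∈ E, x ≤ t := by
  classical
  set V : Set (XT T) := {y | |f y - f OnePoint.infty| < b} with hV
  have hVo : IsOpen V := isOpen_lt ((hf.sub continuous_const).abs) continuous_const
  have hinf : OnePoint.infty ∈ V := by simp [hV, hb]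
  have hK : IsCompact ((((↑) : TT T → XT T) ⁻¹' V)ᶜ) := ((OnePoint.isOpen_iff_of_mem hinf).mp hVo).2
  obtain ⟨E, hE⟩ := hK.elim_finite_subcover (fun t : T => dn t)
    (fun t => isOpen_dn t) (fun x _ => mem_iUnion.mpr ⟨x, le_refl (α := T) x⟩)
  refine ⟨E, fun x hx => ?_⟩
  have hxK : (show TT T from x) ∈ (((↑) : TT T → XT T) ⁻¹' V)ᶜ := by
    intro hxV
    exact absurd (show |f (em x) - f OnePoint.infty| < b from hxV) (not_lt.mpr hx)
  obtain ⟨t, ht, hxt⟩ := mem_iUnion₂.mp (hE hxK)
  exact ⟨t, ht, hxt⟩

theorem exists_max_below (h : IsTree T) {t : T} (s0 : T) (hs0 : s0 < t) (F : Finset T)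
    (hF : ∀ s ∈ F, s < t) : ∃ s, s < t ∧ ∀ s' ∈ F, s' ≤ s := by
  classical
  induction F using Finset.induction with
  | empty => exact ⟨s0, hs0, by simp⟩
  | insert a F _ ih =>
    obtain ⟨s, hs, hs'⟩ := ih (fun s hs => hF s (Finset.mem_insert_of_mem hs))
    have ha : a < t := hF a (Finset.mem_insert_self _ _)
    rcases h.comp a s t ha.le hs.le with hle | hle
    · refine ⟨s, hs, fun s' hs'' => ?_⟩
      rcases Finset.mem_insert.mp hs'' with rfl | hs''
      · exact hle
      · exact hs' s' hs''
    · refine ⟨a, ha, fun s' hs'' => ?_⟩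
      rcases Finset.mem_insert.mp hs'' with rfl | hs''
      · exact le_rfl
      · exact (hs' s' hs'').trans hle

/-- continuity at limit nodes -/
theorem cont_lim (h : IsTree T) {f : XT T → ℝ} (hf : Continuous f) {t : T} (ht : LimTy t) {d : ℝ}
    (hd : 0 < d) : ∃ s, s < t ∧ ∀ x : T, s < x → x ≤ t →
      |f (em x) - f (em t)| < d := by
  set U : Set (TT T) := {x | |f (x : XT T) - f (em t)| < d} with hU
  have hUo : IsOpen U := isOpen_lt (((hf.comp OnePoint.continuous_coe).sub continuous_const).abs)
    continuous_const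
  have htU : (show TT T from t) ∈ U := by
    show |f (em t) - f (em t)| < d
    simpa using hd
  obtain ⟨F, hF, hF'⟩ := hUo t htU
  obtain ⟨s0, hs0⟩ := ht.1
  obtain ⟨s, hs, hs'⟩ := exists_max_below h s0 hs0 F hF
  refine ⟨s, hs, fun x hsx hxt => ?_⟩
  exact hF' x hxt (fun s' hs'' hle => absurd (lt_of_lt_of_le hsx (hle.trans (hs' s' hs''))) (lt_irrefl _))

/-- functions avoiding the values between `a` and `b` -/
def Lab (L : Set (XT T → ℝ)) (a b : ℝ) : Set (XT T → ℝ) :=
  L ∩ {f | ∀ x : TT T, |f (x : XT T) - f OnePoint.infty| ≤ a ∨ b ≤ |f (x : XT T) - f OnePoint.infty|}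

/-- the associated set -/
noncomputable def Phi (b : ℝ) (f : XT T → ℝ) : T → Bool := by
  classical
  exact fun x => decide (b ≤ |f (em x) - f OnePoint.infty|)

theorem Phi_eq_true {b : ℝ} {f : XT T → ℝ} {x : T} :
    Phi b f x = true ↔ b ≤ |f (em x) - f OnePoint.infty| := by
  unfold Phi
  simp

theorem cont_ev (x : TT T) : Continuous fun f : XT T → ℝ => |f (x : XT T) - f OnePoint.infty| := by
  have h1 : Continuous fun f : XT T → ℝ => f (x : XT T) := continuous_apply _
  have h2 : Continuous fun f : XT T → ℝ => f OnePoint.infty := continuous_apply _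
  exact (h1.sub h2).abs

theorem lab_lindelof {L : Set (XT T → ℝ)} (hL : IsLindelof L) (a b : ℝ) : IsLindelof (Lab L a b) := by
  refine hL.inter_right ?_
  simp only [ofPred_forall, ofPred_or]
  refine isClosed_iInter fun x => ?_
  exact (isClosed_le (cont_ev x) continuous_const).union (isClosed_le continuous_const (cont_ev x))

theorem phi_cont {L : Set (XT T → ℝ)} {a b : ℝ} (hab : a < b) : ContinuousOn (Phi b) (Lab L a b) := by
  rw [continuousOn_pi]
  intro x f0 hf0
  have key : ∀ᶠ f in 𝓝[Lab L a b] f0, Phi b f x = Phi b f0 x := by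
    rcases hf0.2 x with h1 | h1
    · have h2 : ∀ᶠ f in 𝓝[Lab L a b] f0, |f (em x) - f OnePoint.infty| < b :=
        nhdsWithin_le_nhds ((cont_ev (T := T) x).continuousAt.eventually_lt continuousAt_const (lt_of_le_of_lt h1 hab))
      filter_upwards [h2] with f hf
      rw [Bool.eq_iff_iff, Phi_eq_true, Phi_eq_true]
      constructor
      · intro h; exact absurd h (not_le.mpr hf)
      · intro h; exact absurd h (not_le.mpr (lt_of_le_of_lt h1 hab))
    · have h2 : ∀ᶠ f in 𝓝[Lab L a b] f0, a < |f (em x) - f OnePoint.infty| :=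
        nhdsWithin_le_nhds (continuousAt_const.eventually_lt (cont_ev (T := T) x).continuousAt (lt_of_lt_of_le hab h1))
      filter_upwards [h2, self_mem_nhdsWithin] with f hf hf'
      rw [Bool.eq_iff_iff, Phi_eq_true, Phi_eq_true]
      constructor
      · intro _; exact h1
      · intro _
        rcases hf'.2 x with h3 | h3
        · exact absurd h3 (not_le.mpr hf)
        · exact h3
  exact Tendsto.congr' (key.mono fun f hf => hf.symm) tendsto_const_nhds

theorem co_phi (h : IsTree T) {L : Set (XT T → ℝ)} (hLc : ∀ f ∈ L, Continuous f) {a b : ℝ} (ha : 0 < a)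
    (hab : a < b) {f : XT T → ℝ} (hf : f ∈ Lab L a b) : CO (Phi b f) := by
  have hfc := hLc f hf.1
  constructor
  · obtain ⟨E, hE⟩ := far_cover hfc (ha.trans hab)
    exact ⟨E, fun x hx => hE x (Phi_eq_true.mp hx)⟩
  · intro t ht
    obtain ⟨s, hs, hs'⟩ := cont_lim h hfc ht (sub_pos.mpr hab)
    refine ⟨s, hs, fun x hsx hxt => ?_⟩
    have h1 := hs' x hsx hxt
    have key : ∀ u v w : ℝ, |u - v| < b - a → b ≤ |v - w| → a < |u - w| := by
      intro u v w h1 h2
      have h3 : |v - w| ≤ |v - u| + |u - w| := abs_sub_le v u w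
      rw [abs_sub_comm v u] at h3
      linarith
    rw [Bool.eq_iff_iff, Phi_eq_true, Phi_eq_true]
    constructor
    · intro h2
      rw [abs_sub_comm] at h1
      have h3 := key _ _ _ h1 h2
      rcases hf.2 t with h4 | h4
      · exact absurd h4 (not_le.mpr h3)
      · exact h4
    · intro h2
      have h3 := key _ _ _ h1 h2
      rcases hf.2 x with h4 | h4
      · exact absurd h4 (not_le.mpr h3)
      · exact h4

theorem cl : T_CL := by
  intro T _ h _ hI L hL hLc hsep
  refine ⟨⋃ p : {p : ℚ × ℚ // 0 < p.1 ∧ p.1 < p.2}, Phi ((p.1.2 : ℚ) : ℝ) '' Lab L (p.1.1 : ℚ) (p.1.2 : ℚ),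
    ?_, ?_, ?_⟩
  · refine isLindelof_iUnion fun p => ?_
    exact (lab_lindelof hL _ _).image_of_continuousOn (phi_cont (by exact_mod_cast p.2.2))
  · intro c hc
    obtain ⟨p, f, hf, rfl⟩ := mem_iUnion.mp hc
    exact co_phi h hLc (by exact_mod_cast p.2.1) (by exact_mod_cast p.2.2) hf
  · intro t
    obtain ⟨f, hf, hne⟩ := hsep t
    have hfc := hLc f hf
    have hv0 : 0 < |f (em t) - f OnePoint.infty| := abs_pos.mpr (sub_ne_zero.mpr hne)
    set v0 := |f (em t) - f OnePoint.infty| with hv0d
    set V : Set ℝ := range fun x : XT T => |f x - f OnePoint.infty| with hV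
    have hVc : IsCompact V := isCompact_range ((hfc.sub continuous_const).abs)
    have hcount : V.Countable := by
      have h1 : {x : T | f (em x) ≠ f OnePoint.infty}.Countable := by
        have h2 : {x : T | f (em x) ≠ f OnePoint.infty} ⊆
            ⋃ n : ℕ, {x : T | 1 / ((n : ℝ) + 1) ≤ |f (em x) - f OnePoint.infty|} := by
          intro x hx
          have h3 : 0 < |f (em x) - f OnePoint.infty| := abs_pos.mpr (sub_ne_zero.mpr hx)
          obtain ⟨n, hn⟩ := exists_nat_one_div_lt h3
          exact mem_iUnion.mpr ⟨n, hn.le⟩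
        refine (countable_iUnion fun n => ?_).mono h2
        obtain ⟨E, hE⟩ := far_cover hfc (b := 1 / ((n : ℝ) + 1)) (by positivity)
        have h4 : {x : T | 1 / ((n : ℝ) + 1) ≤ |f (em x) - f OnePoint.infty|} ⊆
            ⋃ t ∈ E, Iic t := by
          intro x hx
          obtain ⟨t, ht, hxt⟩ := hE x hx
          exact mem_iUnion₂.mpr ⟨t, ht, hxt⟩
        exact (Set.Countable.biUnion E.countable_toSet fun t _ => hI t).mono h4
      have h5 : V ⊆ (fun x : T => |f (em x) - f OnePoint.infty|) ''
          {x : T | f (em x) ≠ f OnePoint.infty} ∪ {0} := by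
        rintro _ ⟨x, rfl⟩
        induction x using OnePoint.rec with
        | infty => right; simp
        | coe x =>
          by_cases hx : f (em x) = f OnePoint.infty
          · right
            show |f (em x) - f OnePoint.infty| = 0
            rw [hx, sub_self, abs_zero]
          · left
            exact ⟨x, hx, rfl⟩
      exact ((h1.image _).union (countable_singleton 0)).mono h5
    have hnot : ¬ Ioo 0 v0 ⊆ V := by
      intro hsub
      have h6 : (Ioo (0 : ℝ) v0).Countable := hcount.mono hsub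
      rw [← Cardinal.le_aleph0_iff_set_countable, Cardinal.mk_Ioo_real hv0] at h6
      exact absurd h6 (not_le.mpr Cardinal.aleph0_lt_continuum)
    obtain ⟨c, hc, hcV⟩ := not_subset.mp hnot
    obtain ⟨e, he, hball⟩ := Metric.isOpen_iff.mp hVc.isClosed.isOpen_compl c hcV
    have hgap : ∀ y ∈ V, y ≤ c - e ∨ c + e ≤ y := by
      intro y hy
      by_contra hcon
      push Not at hcon
      refine hball (a := y) ?_ hy
      rw [Metric.mem_ball, Real.dist_eq, abs_lt]
      constructor <;> linarith [hcon.1, hcon.2]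
    obtain ⟨a, ha1, ha2⟩ := exists_rat_btwn (show max 0 (c - e) < c from max_lt hc.1 (by linarith))
    obtain ⟨b, hb1, hb2⟩ := exists_rat_btwn (show c < min v0 (c + e) from lt_min hc.2 (by linarith))
    have ha0 : (0 : ℝ) < a := lt_of_le_of_lt (le_max_left _ _) ha1
    have hab : (a : ℝ) < b := ha2.trans hb1
    have hmem : f ∈ Lab L (a : ℝ) (b : ℝ) := by
      refine ⟨hf, fun x => ?_⟩
      rcases hgap _ ⟨(x : XT T), rfl⟩ with h7 | h7
      · left
        exact h7.trans ((le_max_right _ _).trans ha1.le)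
      · right
        exact (hb2.le.trans (min_le_right _ _)).trans h7
    refine ⟨Phi (b : ℝ) f, mem_iUnion.mpr ⟨⟨(a, b), by exact_mod_cast ha0, by exact_mod_cast hab⟩, f, hmem, rfl⟩, ?_⟩
    rw [Phi_eq_true]
    exact hb2.le.trans (min_le_left _ _)

end Pool.Agent.H29.SL
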