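import Pool.Agent.H29.SL.T1

/-!
Restriction on the exponent: `53130 = 2 * 3 * 5 * 7 * 11 * 23` does not divide `k + 1`.
-/

set_option autoImplicit false

namespace Pool.Agent.H29.SL

/-- `sigma(p ^ a) / p ^ a` -/
def FF (p a : ℕ) : ℚ := (sg p a : ℚ) / (p : ℚ) ^ a

theorem FF_succ (p b : ℕ) (hp : 1 ≤ p) : FF p b ≤ FF p (b + 1) := by
  unfold FF
  have h1 : sg p (b + 1) = 1 + p * sg p b := by
    unfold sg
    rw [Finset.sum_range_succ', Finset.mul_sum]
    simp [pow_succ, mul_comm, add_comm]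
  have hp' : (0 : ℚ) < p := by exact_mod_cast hp
  have hpb : (0 : ℚ) < (p : ℚ) ^ b := by positivity
  rw [h1, div_le_div_iff₀ hpb (by positivity)]
  push_cast
  rw [pow_succ]
  nlinarith

theorem FF_mono (p a b : ℕ) (hp : 1 ≤ p) (h : a ≤ b) : FF p a ≤ FF p b := by
  induction b, h using Nat.le_induction with
  | base => exact le_rfl
  | succ b _ ih => exact ih.trans (FF_succ p b hp)

theorem FF_one_le (p a : ℕ) (hp : 1 ≤ p) : 1 ≤ FF p a := by
  have h := FF_mono p 0 a hp (Nat.zero_le a)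
  have h0 : FF p 0 = 1 := by simp [FF, sg]
  rw [h0] at h
  exact h

/-- The perfect number equation. -/
theorem FF_prod {q k n : ℕ} (d : Dat q k n) :
    FF q k * ∏ p ∈ n.primeFactors, FF p (d.a p) = 2 := by
  have hq0 : (q : ℚ) ≠ 0 := by exact_mod_cast d.hq.ne_zero
  have h1 : ∏ p ∈ n.primeFactors, ((sg p (d.a p) : ℕ) : ℚ) = (q : ℚ) ^ k * d.D := by
    have h2 : ∏ p ∈ n.primeFactors, sg p (d.a p) = q ^ k * d.D := by
      calc ∏ p ∈ n.primeFactors, sg p (d.a p)
          = ∏ p ∈ n.primeFactors, q ^ d.e p * d.u p :=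
            Finset.prod_congr rfl (fun p hp => (d.hue p hp).symm)
        _ = q ^ (∑ p ∈ n.primeFactors, d.e p) * ∏ p ∈ n.primeFactors, d.u p := by
            rw [Finset.prod_mul_distrib, Finset.prod_pow_eq_pow_sum]
        _ = q ^ k * d.D := by rw [d.hsum, d.hprod]
    exact_mod_cast h2
  have h3 : ∏ p ∈ n.primeFactors, (p : ℚ) ^ d.a p = (n : ℚ) ^ 2 := by
    have h4 : ∏ p ∈ n.primeFactors, p ^ d.a p = n ^ 2 := by
      have h5 := Nat.prod_factorization_pow_eq_self (n := n ^ 2) (pow_ne_zero 2 d.hn)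
      have h6 : (n ^ 2).primeFactors = n.primeFactors := Nat.primeFactors_pow n (by norm_num)
      calc ∏ p ∈ n.primeFactors, p ^ d.a p
          = ∏ p ∈ (n ^ 2).primeFactors, p ^ (n ^ 2).factorization p := by
            rw [h6]
            exact Finset.prod_congr rfl (fun p _ => by rw [d.ha])
        _ = n ^ 2 := h5
    exact_mod_cast h4
  unfold FF
  rw [Finset.prod_div_distrib, h1, h3, d.hS]
  have h7 : ((n : ℚ)) ^ 2 = d.S * d.D := by exact_mod_cast d.hSD
  rw [h7]
  have hS0 : (d.S : ℚ) ≠ 0 := by exact_mod_cast (S_pos d).ne'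
  have hD0 : (d.D : ℚ) ≠ 0 := by exact_mod_cast (D_pos d).ne'
  push_cast
  field_simp

/-- The product over a set of prime divisors of `n` is at most `2`. -/
theorem FF_sub {q k n : ℕ} (d : Dat q k n) (T : Finset ℕ) (hT : T ⊆ n.primeFactors) :
    FF q k * ∏ p ∈ T, FF p (d.a p) ≤ 2 := by
  rw [← FF_prod d]
  refine mul_le_mul_of_nonneg_left ?_ (by
    have := FF_one_le q k d.hq.pos
    linarith)
  refine Finset.prod_le_prod_of_subset_of_one_le hT ?_ ?_
  · intro p hp
    have := FF_one_le p (d.a p) (Nat.prime_of_mem_primeFactors (hT hp)).pos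
    linarith
  · intro p hp _
    exact FF_one_le p (d.a p) (Nat.prime_of_mem_primeFactors hp).pos

/-- A prime `p` with `p ∣ k + 1` and `p - 1 ∣ k + 1` divides `sigma(q ^ k)`. -/
theorem dvd_sg (p q k : ℕ) (hp : p.Prime) (hq : q.Prime) (hpq : p ≠ q) (h1 : p ∣ k + 1)
    (h2 : p - 1 ∣ k + 1) : p ∣ sg q k := by
  have hm := sg_mul q k hq.pos
  obtain ⟨t, ht⟩ := h2
  have hco : Nat.Coprime q p := (Nat.coprime_primes hq hp).2 hpq.symm
  have hpow : q ^ (k + 1) ≡ 1 [MOD p] := by
    rw [ht, pow_mul]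
    have h3 : q ^ (p - 1) ≡ 1 [MOD p] := by
      have := Nat.ModEq.pow_totient hco
      rwa [Nat.totient_prime hp] at this
    have h4 := h3.pow t
    rwa [one_pow] at h4
  by_cases hq1 : p ∣ q - 1
  · -- `q ≡ 1`
    have hq1' : q ≡ 1 [MOD p] := ((Nat.modEq_iff_dvd' hq.one_lt.le).2 hq1).symm
    have h5 : sg q k ≡ k + 1 [MOD p] := by
      unfold sg
      have h6 : ∀ m : ℕ, ∑ i ∈ Finset.range m, q ^ i ≡ m [MOD p] := by
        intro m
        induction m with
        | zero => exact Nat.ModEq.refl _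
        | succ m ih =>
          rw [Finset.sum_range_succ]
          have h7 := hq1'.pow m
          rw [one_pow] at h7
          exact ih.add h7
      exact h6 (k + 1)
    exact (Nat.modEq_zero_iff_dvd).1 (h5.trans ((Nat.modEq_zero_iff_dvd).2 h1))
  · have h5 : p ∣ (q - 1) * sg q k := by
      have h6 : (q - 1) * sg q k + 1 ≡ 1 [MOD p] := by rw [hm]; exact hpow
      have h7 : (q - 1) * sg q k ≡ 0 [MOD p] := by
        have := Nat.ModEq.add_right_cancel' 1 (show (q - 1) * sg q k + 1 ≡ 0 + 1 [MOD p] by simpa using h6)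
        exact this
      exact (Nat.modEq_zero_iff_dvd).1 h7
    exact (hp.dvd_mul.1 h5).resolve_left hq1

/-- Such primes, if odd and different from `q`, divide `n`. -/
theorem mem_of_two {q k n : ℕ} (d : Dat q k n) (p : ℕ) (hp : p.Prime) (hp4 : p % 4 = 3)
    (h1 : p ∣ k + 1) (h2 : p - 1 ∣ k + 1) : p ∈ n.primeFactors := by
  have hpq : p ≠ q := by
    rintro rfl
    have := d.hq4
    omega
  have h3 := dvd_sg p q k hp d.hq hpq h1 h2
  rw [d.hS] at h3
  refine mem_of_dvd d p hp ?_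
  rcases hp.dvd_mul.1 h3 with h | h
  · exfalso
    have := Nat.le_of_dvd (by norm_num) h
    have := hp.two_le
    omega
  · exact h

theorem a_ge_two {q k n : ℕ} (d : Dat q k n) (p : ℕ) (hp : p ∈ n.primeFactors) :
    2 ≤ d.a p := by
  have h1 : 1 ≤ d.a p := by
    rw [d.ha]
    have hpp := Nat.prime_of_mem_primeFactors hp
    refine (hpp.dvd_iff_one_le_factorization (pow_ne_zero 2 d.hn)).1 ?_
    exact Dvd.dvd.pow (Nat.dvd_of_mem_primeFactors hp) (by norm_num)
  rcases d.haeven p with ⟨r, hr⟩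
  omega

/-- A prime dividing `u p` divides `n`. -/
theorem mem_of_dvd_u {q k n : ℕ} (d : Dat q k n) (p r : ℕ) (hp : p ∈ n.primeFactors)
    (hr : r.Prime) (h : r ∣ d.u p) : r ∈ n.primeFactors := by
  rw [Nat.mem_primeFactors]
  refine ⟨hr, ?_, d.hn⟩
  have h1 : d.u p ∣ d.D := by
    rw [← d.hprod]
    exact Finset.dvd_prod_of_mem _ hp
  have h2 : r ∣ n ^ 2 := by rw [d.hSD]; exact Dvd.dvd.mul_left (h.trans h1) _
  exact hr.dvd_of_dvd_pow h2

theorem mul_bd4 {x1 x2 x3 x4 a1 a2 a3 a4 : ℚ} (h1 : a1 ≤ x1) (h2 : a2 ≤ x2) (h3 : a3 ≤ x3)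
    (h4 : a4 ≤ x4) (p1 : 0 < a1) (p2 : 0 < a2) (p3 : 0 < a3) (p4 : 0 < a4) :
    a1 * (a2 * (a3 * a4)) ≤ x1 * (x2 * (x3 * x4)) := by
  have q1 := p1.trans_le h1
  have q2 := p2.trans_le h2
  have q3 := p3.trans_le h3
  have q4 := p4.trans_le h4
  gcongr

theorem mul_bd5 {x1 x2 x3 x4 x5 a1 a2 a3 a4 a5 : ℚ} (h1 : a1 ≤ x1) (h2 : a2 ≤ x2) (h3 : a3 ≤ x3)
    (h4 : a4 ≤ x4) (h5 : a5 ≤ x5) (p1 : 0 < a1) (p2 : 0 < a2) (p3 : 0 < a3) (p4 : 0 < a4)
    (p5 : 0 < a5) :
    a1 * (a2 * (a3 * (a4 * a5))) ≤ x1 * (x2 * (x3 * (x4 * x5))) := by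
  have q1 := p1.trans_le h1
  have q2 := p2.trans_le h2
  have q3 := p3.trans_le h3
  have q4 := p4.trans_le h4
  have q5 := p5.trans_le h5
  gcongr

/-- The product over four primes. -/
theorem prod4 {q k n : ℕ} (d : Dat q k n) (p1 p2 p3 p4 : ℕ) (h1 : p1 ∈ n.primeFactors)
    (h2 : p2 ∈ n.primeFactors) (h3 : p3 ∈ n.primeFactors) (h4 : p4 ∈ n.primeFactors)
    (n1 : p1 < p2) (n2 : p2 < p3) (n3 : p3 < p4) :
    FF q k * (FF p1 (d.a p1) * (FF p2 (d.a p2) * (FF p3 (d.a p3) * FF p4 (d.a p4)))) ≤ 2 := by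
  have hsub : ({p1, p2, p3, p4} : Finset ℕ) ⊆ n.primeFactors := by
    intro x hx
    simp only [Finset.mem_insert, Finset.mem_singleton] at hx
    rcases hx with rfl | rfl | rfl | rfl <;> assumption
  have h := FF_sub d _ hsub
  rw [Finset.prod_insert (by simp; omega), Finset.prod_insert (by simp; omega),
    Finset.prod_insert (by simp; omega), Finset.prod_singleton] at h
  exact h

/-- The product over five primes. -/
theorem prod5 {q k n : ℕ} (d : Dat q k n) (p1 p2 p3 p4 p5 : ℕ) (h1 : p1 ∈ n.primeFactors)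
    (h2 : p2 ∈ n.primeFactors) (h3 : p3 ∈ n.primeFactors) (h4 : p4 ∈ n.primeFactors)
    (h5 : p5 ∈ n.primeFactors) (n1 : p1 < p2) (n2 : p2 < p3) (n3 : p3 < p4) (n4 : p4 < p5) :
    FF q k * (FF p1 (d.a p1) * (FF p2 (d.a p2) * (FF p3 (d.a p3) * (FF p4 (d.a p4) *
      FF p5 (d.a p5))))) ≤ 2 := by
  have hsub : ({p1, p2, p3, p4, p5} : Finset ℕ) ⊆ n.primeFactors := by
    intro x hx
    simp only [Finset.mem_insert, Finset.mem_singleton] at hx
    rcases hx with rfl | rfl | rfl | rfl | rfl <;> assumption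
  have h := FF_sub d _ hsub
  rw [Finset.prod_insert (by simp; omega), Finset.prod_insert (by simp; omega),
    Finset.prod_insert (by simp; omega), Finset.prod_insert (by simp; omega),
    Finset.prod_singleton] at h
  exact h

/-- No odd perfect number is divisible by `3 * 7 * 11 * 23`. -/
theorem not_5313 {q k n : ℕ} (d : Dat q k n) (h3 : 3 ∈ n.primeFactors)
    (h7 : 7 ∈ n.primeFactors) (h11 : 11 ∈ n.primeFactors) (h23 : 23 ∈ n.primeFactors) :
    False := by
  have hk1 : 1 ≤ k := by have := d.hk4; omega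
  have hq1 : 1 ≤ FF q k := FF_one_le q k d.hq.pos
  have b3 := FF_mono 3 2 (d.a 3) (by norm_num) (a_ge_two d 3 h3)
  have b7 := FF_mono 7 2 (d.a 7) (by norm_num) (a_ge_two d 7 h7)
  have b11 := FF_mono 11 2 (d.a 11) (by norm_num) (a_ge_two d 11 h11)
  have b23 := FF_mono 23 2 (d.a 23) (by norm_num) (a_ge_two d 23 h23)
  have v3 : FF 3 2 = 13 / 9 := by norm_num [FF, sg, Finset.sum_range_succ]
  have v34 : FF 3 4 = 121 / 81 := by norm_num [FF, sg, Finset.sum_range_succ]
  have v7 : FF 7 2 = 57 / 49 := by norm_num [FF, sg, Finset.sum_range_succ]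
  have v74 : FF 7 4 = 2801 / 2401 := by norm_num [FF, sg, Finset.sum_range_succ]
  have v11 : FF 11 2 = 133 / 121 := by norm_num [FF, sg, Finset.sum_range_succ]
  have v23 : FF 23 2 = 553 / 529 := by norm_num [FF, sg, Finset.sum_range_succ]
  have v13 : FF 13 2 = 183 / 169 := by norm_num [FF, sg, Finset.sum_range_succ]
  have v13' : FF 13 1 = 14 / 13 := by norm_num [FF, sg, Finset.sum_range_succ]
  have v19 : FF 19 2 = 381 / 361 := by norm_num [FF, sg, Finset.sum_range_succ]
  rw [v3] at b3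
  rw [v7] at b7
  rw [v11] at b11
  rw [v23] at b23
  have main4 := prod4 d 3 7 11 23 h3 h7 h11 h23 (by norm_num) (by norm_num) (by norm_num)
  have ha3 := a_ge_two d 3 h3
  have ha7 := a_ge_two d 7 h7
  rcases Nat.lt_or_ge (d.a 3) 4 with h | h
  · -- `a 3 = 2`
    have h32 : d.a 3 = 2 := by
      rcases d.haeven 3 with ⟨r, hr⟩
      omega
    have hue := d.hue 3 h3
    rw [h32] at hue
    have hs : sg 3 2 = 13 := by decide
    rw [hs] at hue
    rcases Nat.eq_zero_or_pos (d.e 3) with he | he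
    · rw [he, pow_zero, one_mul] at hue
      have h13 := mem_of_dvd_u d 3 13 h3 (by norm_num) (by rw [hue])
      have b13 := FF_mono 13 2 (d.a 13) (by norm_num) (a_ge_two d 13 h13)
      rw [v13] at b13
      have main5 := prod5 d 3 7 11 13 23 h3 h7 h11 h13 h23 (by norm_num) (by norm_num)
        (by norm_num) (by norm_num)
      have h5 := mul_bd5 b3 b7 b11 b13 b23 (by norm_num) (by norm_num) (by norm_num)
        (by norm_num) (by norm_num)
      nlinarith
    · have hq13 : q ∣ 13 := by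
        rw [← hue]
        exact Dvd.dvd.mul_right (dvd_pow_self q (by omega)) _
      have hq : q = 13 := ((Nat.prime_dvd_prime_iff_eq d.hq (by norm_num)).1 hq13)
      have bq := FF_mono q 1 k d.hq.pos hk1
      have hFq : FF q 1 = 14 / 13 := by rw [hq]; exact v13'
      rw [hFq] at bq
      have h4 := mul_bd4 b3 b7 b11 b23 (by norm_num) (by norm_num) (by norm_num) (by norm_num)
      nlinarith
  · have c3 := FF_mono 3 4 (d.a 3) (by norm_num) h
    rw [v34] at c3
    rcases Nat.lt_or_ge (d.a 7) 4 with h' | h'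
    · have h72 : d.a 7 = 2 := by
        rcases d.haeven 7 with ⟨r, hr⟩
        omega
      have hue := d.hue 7 h7
      rw [h72] at hue
      have hs : sg 7 2 = 57 := by decide
      rw [hs] at hue
      have he : d.e 7 = 0 := by
        by_contra hne
        have hq57 : q ∣ 3 * 19 := by
          rw [show 3 * 19 = 57 by norm_num, ← hue]
          exact Dvd.dvd.mul_right (dvd_pow_self q hne) _
        have hq4 := d.hq4
        rcases d.hq.dvd_mul.1 hq57 with h8 | h8
        · have := (Nat.prime_dvd_prime_iff_eq d.hq (by norm_num)).1 h8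
          omega
        · have := (Nat.prime_dvd_prime_iff_eq d.hq (by norm_num)).1 h8
          omega
      rw [he, pow_zero, one_mul] at hue
      have h19 := mem_of_dvd_u d 7 19 h7 (by norm_num) (by rw [hue]; norm_num)
      have b19 := FF_mono 19 2 (d.a 19) (by norm_num) (a_ge_two d 19 h19)
      rw [v19] at b19
      have main5 := prod5 d 3 7 11 19 23 h3 h7 h11 h19 h23 (by norm_num) (by norm_num)
        (by norm_num) (by norm_num)
      have h5 := mul_bd5 c3 b7 b11 b19 b23 (by norm_num) (by norm_num) (by norm_num)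
        (by norm_num) (by norm_num)
      nlinarith
    · have c7 := FF_mono 7 4 (d.a 7) (by norm_num) h'
      rw [v74] at c7
      have h4 := mul_bd4 c3 c7 b11 b23 (by norm_num) (by norm_num) (by norm_num) (by norm_num)
      nlinarith

/-- `53130` does not divide `k + 1`. -/
theorem not_53130 {q k n : ℕ} (d : Dat q k n) : ¬ 53130 ∣ k + 1 := by
  intro h
  have h3 := mem_of_two d 3 (by norm_num) (by norm_num) ((by norm_num : 3 ∣ 53130).trans h)
    ((by norm_num : 3 - 1 ∣ 53130).trans h)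
  have h7 := mem_of_two d 7 (by norm_num) (by norm_num) ((by norm_num : 7 ∣ 53130).trans h)
    ((by norm_num : 7 - 1 ∣ 53130).trans h)
  have h11 := mem_of_two d 11 (by norm_num) (by norm_num) ((by norm_num : 11 ∣ 53130).trans h)
    ((by norm_num : 11 - 1 ∣ 53130).trans h)
  have h23 := mem_of_two d 23 (by norm_num) (by norm_num) ((by norm_num : 23 ∣ 53130).trans h)
    ((by norm_num : 23 - 1 ∣ 53130).trans h)
  exact not_5313 d h3 h7 h11 h23

end Pool.Agent.H29.SL
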