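import Pool.Agent.H29.SL.Targets

set_option autoImplicit false

namespace Pool.Agent.H29.SL

/-- `p ^ c ∣ q + 1`, `e` odd: then `2 u ≥ p ^ c`. -/
theorem odd_bound (p q c a e u : ℕ) (hp : 3 ≤ p) (hca : c ≤ a) (he : Odd e)
    (hd : p ^ c ∣ q + 1) (hu : q ^ e * u = sg p a) : p ^ c ≤ 2 * u := by
  have h1 := sg_mul p a (by omega)
  rw [← hu] at h1
  obtain ⟨v, rfl⟩ : ∃ v, p = v + 1 := ⟨p - 1, by omega⟩
  simp only [Nat.add_sub_cancel] at h1
  have h2 : ((v : ℤ) + 1) ^ c ∣ (q : ℤ) + 1 := by exact_mod_cast hd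
  have hq : ((v : ℤ) + 1) ^ c ∣ (q : ℤ) ^ e + 1 := by
    have h3 : (q : ℤ) + 1 ∣ (q : ℤ) ^ e + 1 ^ e := Odd.add_dvd_pow_add_pow _ _ he
    rw [one_pow] at h3
    exact h2.trans h3
  have h4 : ((v : ℤ) + 1) ^ c ∣ (v : ℤ) * u - 1 := by
    have h5 : ((v : ℤ) + 1) ^ c ∣ ((v : ℤ) + 1) ^ (a + 1) := pow_dvd_pow _ (by omega)
    have h6 : (v : ℤ) * ((q : ℤ) ^ e * u) + 1 = ((v : ℤ) + 1) ^ (a + 1) := by exact_mod_cast h1
    have h7 : (v : ℤ) * u - 1 = (v : ℤ) * u * ((q : ℤ) ^ e + 1) - ((v : ℤ) + 1) ^ (a + 1) := by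
      rw [← h6]; ring
    rw [h7]
    exact dvd_sub (Dvd.dvd.mul_left hq _) h5
  obtain ⟨t, ht⟩ := h4
  have h8 : (v : ℤ) ∣ ((v : ℤ) + 1) ^ c - 1 := by
    have := sub_one_dvd_pow_sub_one ((v : ℤ) + 1) c
    rwa [add_sub_cancel_right] at this
  obtain ⟨w, hw⟩ := h8
  have hv : (2 : ℤ) ≤ v := by
    have : 2 ≤ v := by omega
    exact_mod_cast this
  have hvt : (v : ℤ) ∣ t + 1 := by
    refine ⟨u - w * t, ?_⟩
    have h9 : ((v : ℤ) + 1) ^ c = 1 + v * w := by linarith
    rw [h9] at ht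
    linarith [ht]
  have hP : (1 : ℤ) ≤ ((v : ℤ) + 1) ^ c := one_le_pow₀ (by linarith)
  have ht0 : 0 ≤ t := by
    by_contra hneg
    push Not at hneg
    have hu0 : (0 : ℤ) ≤ (v : ℤ) * u := by positivity
    have h10 : ((v : ℤ) + 1) ^ c * t ≤ -((v : ℤ) + 1) ^ c := by nlinarith
    -- then v*u = 1 + P t ≤ 1 - P ≤ 0, so u = 0 and P t = -1
    have h11 : (v : ℤ) * u = 0 := by linarith
    have h12 : t = -1 := by
      have : ((v : ℤ) + 1) ^ c * t = -1 := by linarith
      nlinarith
    have h13 : u = 0 := by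
      rcases mul_eq_zero.1 h11 with h | h
      · linarith
      · exact_mod_cast h
    subst h13
    simp only [mul_zero, zero_add] at h1
    have : (v + 1) ^ (a + 1) = 1 := h1.symm
    have h14 := Nat.pow_eq_one.1 this
    omega
  have ht1 : (v : ℤ) ≤ t + 1 := Int.le_of_dvd (by linarith) hvt
  have hfin : ((v : ℤ) + 1) ^ c ≤ 2 * u := by
    have h15 : (v : ℤ) * u = 1 + ((v : ℤ) + 1) ^ c * t := by linarith
    have h16 : (v : ℤ) * (2 * u - ((v : ℤ) + 1) ^ c) ≥ 0 := by nlinarith
    by_contra hcon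
    push Not at hcon
    nlinarith
  exact_mod_cast hfin

theorem two_sg_lt (p a : ℕ) (hp : 3 ≤ p) : 2 * sg p a < 3 * p ^ a := by
  have h1 := sg_mul p a (by omega)
  obtain ⟨v, rfl⟩ : ∃ v, p = v + 1 := ⟨p - 1, by omega⟩
  simp only [Nat.add_sub_cancel] at h1
  rw [pow_succ] at h1
  have hP : 0 < (v + 1) ^ a := Nat.pos_of_ne_zero (by positivity)
  have hv : 2 ≤ v := by omega
  by_contra hcon
  push Not at hcon
  nlinarith

theorem pow_le_sg (p a : ℕ) : p ^ a ≤ sg p a := by
  unfold sg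
  exact Finset.single_le_sum (f := fun i => p ^ i) (fun i _ => Nat.zero_le _)
    (Finset.mem_range.2 (Nat.lt_succ_self a))

/-- `sg q (2 m + 1) = (q + 1) * sg (q ^ 2) m`. -/
theorem sg_odd (q m : ℕ) : sg q (2 * m + 1) = (q + 1) * sg (q ^ 2) m := by
  unfold sg
  induction m with
  | zero => simp [Finset.sum_range_succ]; ring
  | succ m ih =>
    rw [show 2 * (m + 1) + 1 + 1 = (2 * m + 1 + 1) + 1 + 1 by ring, Finset.sum_range_succ,
      Finset.sum_range_succ, ih, Finset.sum_range_succ _ (m + 1)]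
    ring

/-- Lifting the exponent: the cofactor. -/
theorem pow_fac_le (q m p : ℕ) (hp : p.Prime) (hp2 : p ≠ 2) (hq : 2 ≤ q) (hd : p ∣ q + 1) :
    p ^ (sg (q ^ 2) m).factorization p ≤ m + 1 := by
  have := Fact.mk hp
  have hq2 : 1 < q ^ 2 := by nlinarith
  have h1 := sg_mul (q ^ 2) m (by omega)
  have hodd : Odd p := hp.odd_of_ne_two hp2
  have hpq : ¬ p ∣ q ^ 2 := by
    intro h
    have h2 : p ∣ q := hp.dvd_of_dvd_pow h
    have h3 : p ∣ 1 := (Nat.dvd_add_right h2).1 hd
    exact hp.one_lt.ne' (Nat.dvd_one.1 h3)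
  have hps : p ∣ q ^ 2 - 1 := by
    have : q ^ 2 - 1 = (q + 1) * (q - 1) := by
      have := Nat.sq_sub_sq q 1
      simpa using this
    rw [this]
    exact Dvd.dvd.mul_right hd _
  have h2 := padicValNat.pow_sub_pow (p := p) hodd (x := q ^ 2) (y := 1) hq2 hps hpq
    (n := m + 1) (by omega)
  rw [one_pow] at h2
  have h3 : (q ^ 2) ^ (m + 1) - 1 = (q ^ 2 - 1) * sg (q ^ 2) m := by omega
  have hR : sg (q ^ 2) m ≠ 0 := by
    have := pow_le_sg (q ^ 2) m
    have h4 : 0 < (q ^ 2) ^ m := Nat.pos_of_ne_zero (by positivity)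
    omega
  rw [h3, padicValNat.mul (by omega) hR] at h2
  have h5 : (sg (q ^ 2) m).factorization p = padicValNat p (m + 1) := by
    rw [Nat.factorization_def _ hp]; omega
  rw [h5]
  exact Nat.le_of_dvd (by omega) pow_padicValNat_dvd

theorem D_pos {q k n : ℕ} (d : Dat q k n) : 0 < d.D := by
  rcases Nat.eq_zero_or_pos d.D with h | h
  · exfalso
    have := d.hSD
    rw [h, mul_zero] at this
    exact d.hn (pow_eq_zero_iff (by norm_num) |>.1 this)
  · exact h

theorem S_pos {q k n : ℕ} (d : Dat q k n) : 0 < d.S := by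
  rcases Nat.eq_zero_or_pos d.S with h | h
  · exfalso
    have := d.hSD
    rw [h, zero_mul] at this
    exact d.hn (pow_eq_zero_iff (by norm_num) |>.1 this)
  · exact h

theorem u_pos {q k n : ℕ} (d : Dat q k n) (p : ℕ) (hp : p ∈ n.primeFactors) : 1 ≤ d.u p := by
  have := (d.huodd p hp).pos
  omega

theorem mem_of_dvd {q k n : ℕ} (d : Dat q k n) (p : ℕ) (hp : p.Prime) (h : p ∣ d.S) :
    p ∈ n.primeFactors := by
  rw [Nat.mem_primeFactors]
  refine ⟨hp, ?_, d.hn⟩
  have : p ∣ n ^ 2 := by rw [d.hSD]; exact Dvd.dvd.mul_right h _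
  exact hp.dvd_of_dvd_pow this

theorem p_odd {q k n : ℕ} (d : Dat q k n) (p : ℕ) (hp : p ∈ n.primeFactors) : 3 ≤ p := by
  have hpp := Nat.prime_of_mem_primeFactors hp
  have hdn := Nat.dvd_of_mem_primeFactors hp
  have h2 := hpp.two_le
  rcases Nat.lt_or_ge p 3 with h | h
  · exfalso
    have : p = 2 := by omega
    subst this
    have := d.hodd
    rw [Nat.odd_iff] at this
    omega
  · exact h

/-- `c ≤ a p` if `p ^ c` divides `S`. -/
theorem le_a {q k n : ℕ} (d : Dat q k n) (p c : ℕ) (hp : p.Prime) (h : p ^ c ∣ d.S) :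
    c ≤ d.a p := by
  rw [d.ha]
  have h1 : p ^ c ∣ n ^ 2 := by rw [d.hSD]; exact Dvd.dvd.mul_right h _
  exact (hp.pow_dvd_iff_le_factorization (pow_ne_zero 2 d.hn)).1 h1

theorem prod_u_le {q k n : ℕ} (d : Dat q k n) (s : Finset ℕ) (hs : s ⊆ n.primeFactors) :
    ∏ p ∈ s, d.u p ≤ d.D := by
  rw [← d.hprod]
  exact Finset.prod_le_prod_of_subset_of_one_le' hs (fun p hp _ => u_pos d p hp)

theorem pf_T1 : T_T1 := by
  intro q k n d
  obtain ⟨m, hm⟩ : ∃ m, k = 2 * m + 1 := ⟨k / 2, by have := d.hk4; omega⟩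
  obtain ⟨A, hA⟩ : ∃ A, q + 1 = 2 * A := ⟨(q + 1) / 2, by have := d.hq4; omega⟩
  have hq5 : 5 ≤ q := by
    have := d.hq4
    have := d.hq.two_le
    omega
  have hA0 : A ≠ 0 := by omega
  set R := sg (q ^ 2) m with hR
  have hsgk : sg q k = 2 * A * R := by rw [hm, sg_odd, hA]
  have hk2 : k + 1 = 2 * (m + 1) := by omega
  have hS : d.S = A * R := by
    have h1 := d.hS
    rw [hsgk] at h1
    have : 2 * d.S = 2 * (A * R) := by rw [← h1]; ring
    omega
  have hR0 : R ≠ 0 := by
    intro h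
    rw [h, mul_zero] at hS
    have := S_pos d
    omega
  -- main inequality
  have key : 2 * q ≤ 3 * (k + 1) * d.D := by
    by_cases hex : ∃ p, p.Prime ∧ p ∣ A ∧ 1 ≤ d.e p
    · obtain ⟨p, hp, hpA, hep⟩ := hex
      have hpS : p ∣ d.S := by rw [hS]; exact Dvd.dvd.mul_right hpA _
      have hpn := mem_of_dvd d p hp hpS
      have hp3 := p_odd d p hpn
      have hpq : p ∣ q + 1 := by rw [hA]; exact Dvd.dvd.mul_left hpA _
      set c := A.factorization p with hc
      have hcA : p ^ c ∣ A := Nat.ordProj_dvd A p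
      have hcS : p ^ c ∣ d.S := by rw [hS]; exact Dvd.dvd.mul_right hcA _
      have hca : c ≤ d.a p := le_a d p c hp hcS
      have hcq : p ^ c ∣ q + 1 := by rw [hA]; exact Dvd.dvd.mul_left hcA _
      have hRle : p ^ R.factorization p ≤ m + 1 :=
        pow_fac_le q m p hp (by omega) (by omega) hpq
      have hfa : d.a p = c + R.factorization p + d.D.factorization p := by
        rw [d.ha, d.hSD, hS, Nat.factorization_mul (mul_ne_zero hA0 hR0) (D_pos d).ne',
          Nat.factorization_mul hA0 hR0]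
        simp [hc]
      have hpD : p ^ d.D.factorization p ≤ d.D :=
        Nat.le_of_dvd (D_pos d) (Nat.ordProj_dvd _ _)
      have hpa : p ^ d.a p ≤ p ^ c * (m + 1) * d.D := by
        rw [hfa, pow_add, pow_add]
        exact Nat.mul_le_mul (Nat.mul_le_mul le_rfl hRle) hpD
      have hsg := two_sg_lt p (d.a p) hp3
      have hue := d.hue p hpn
      rw [← hue] at hsg
      have hu1 := u_pos d p hpn
      have hpcpos : 0 < p ^ c := Nat.pos_of_ne_zero (pow_ne_zero _ hp.ne_zero)
      rcases Nat.even_or_odd (d.e p) with he | he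
      · -- even
        have he2 : 2 ≤ d.e p := by
          rcases he with ⟨r, hr⟩
          omega
        have hqe : q ^ 2 ≤ q ^ d.e p := Nat.pow_le_pow_right (by omega) he2
        have hAq : p ^ c ≤ q := by
          have := Nat.le_of_dvd (Nat.pos_of_ne_zero hA0) hcA
          omega
        have h1 : 2 * (q ^ 2 * 1) ≤ 2 * (q ^ d.e p * d.u p) :=
          Nat.mul_le_mul le_rfl (Nat.mul_le_mul hqe hu1)
        have h2 : 2 * (q ^ 2 * 1) < 3 * (q * (m + 1) * d.D) := by
          calc 2 * (q ^ 2 * 1) ≤ 2 * (q ^ d.e p * d.u p) := h1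
            _ < 3 * p ^ d.a p := hsg
            _ ≤ 3 * (p ^ c * (m + 1) * d.D) := Nat.mul_le_mul le_rfl hpa
            _ ≤ 3 * (q * (m + 1) * d.D) := by
                exact Nat.mul_le_mul le_rfl (Nat.mul_le_mul (Nat.mul_le_mul hAq le_rfl) le_rfl)
        have h3 : q * (2 * q) < q * (3 * (m + 1) * d.D) := by
          calc q * (2 * q) = 2 * (q ^ 2 * 1) := by ring
            _ < 3 * (q * (m + 1) * d.D) := h2
            _ = q * (3 * (m + 1) * d.D) := by ring
        have h4 := Nat.lt_of_mul_lt_mul_left h3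
        rw [hk2]
        nlinarith [D_pos d]
      · -- odd
        have hb := odd_bound p q c (d.a p) (d.e p) (d.u p) hp3 hca he hcq hue
        have hqe : q ≤ q ^ d.e p := by
          calc q = q ^ 1 := (pow_one q).symm
            _ ≤ q ^ d.e p := Nat.pow_le_pow_right (by omega) hep
        have h2 : 2 * (q * d.u p) < 3 * (2 * d.u p * (m + 1) * d.D) := by
          calc 2 * (q * d.u p) ≤ 2 * (q ^ d.e p * d.u p) :=
                Nat.mul_le_mul le_rfl (Nat.mul_le_mul hqe le_rfl)
            _ < 3 * p ^ d.a p := hsg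
            _ ≤ 3 * (p ^ c * (m + 1) * d.D) := Nat.mul_le_mul le_rfl hpa
            _ ≤ 3 * (2 * d.u p * (m + 1) * d.D) := by
                exact Nat.mul_le_mul le_rfl (Nat.mul_le_mul (Nat.mul_le_mul hb le_rfl) le_rfl)
        have h3 : d.u p * (2 * q) < d.u p * (6 * (m + 1) * d.D) := by
          calc d.u p * (2 * q) = 2 * (q * d.u p) := by ring
            _ < 3 * (2 * d.u p * (m + 1) * d.D) := h2
            _ = d.u p * (6 * (m + 1) * d.D) := by ring
        have h4 := Nat.lt_of_mul_lt_mul_left h3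
        rw [hk2]
        calc 2 * q ≤ 6 * (m + 1) * d.D := h4.le
          _ = 3 * (2 * (m + 1)) * d.D := by ring
    · push Not at hex
      have hAD : A ≤ d.D := by
        have hsub : A.primeFactors ⊆ n.primeFactors := by
          intro p hp
          have hpp := Nat.prime_of_mem_primeFactors hp
          have hpd := Nat.dvd_of_mem_primeFactors hp
          exact mem_of_dvd d p hpp (by rw [hS]; exact Dvd.dvd.mul_right hpd _)
        calc A = ∏ p ∈ A.primeFactors, p ^ A.factorization p :=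
              (Nat.prod_factorization_pow_eq_self hA0).symm
          _ ≤ ∏ p ∈ A.primeFactors, d.u p := by
              refine Finset.prod_le_prod' ?_
              intro p hp
              have hpp := Nat.prime_of_mem_primeFactors hp
              have hpd := Nat.dvd_of_mem_primeFactors hp
              have he0 : d.e p = 0 := by
                have := hex p hpp hpd
                omega
              have hue := d.hue p (hsub hp)
              rw [he0, pow_zero, one_mul] at hue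
              rw [hue]
              have hca : A.factorization p ≤ d.a p := by
                refine le_a d p _ hpp ?_
                rw [hS]
                exact Dvd.dvd.mul_right (Nat.ordProj_dvd A p) _
              exact (Nat.pow_le_pow_right hpp.pos hca).trans (pow_le_sg p _)
          _ ≤ d.D := prod_u_le d _ hsub
      have hk1 : 1 ≤ k := by omega
      nlinarith
  have hqk : q ^ k ≤ 2 * d.S := by
    rw [← d.hS]; exact pow_le_sg q k
  have h1 : 2 * q * q ^ k ≤ 3 * (k + 1) * d.D * (2 * d.S) := Nat.mul_le_mul key hqk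
  have h2 : 3 * (k + 1) * d.D * (2 * d.S) = 2 * (3 * (k + 1) * n ^ 2) := by
    rw [d.hSD]; ring
  have h3 : 2 * q * q ^ k = 2 * q ^ (k + 1) := by ring
  omega

end Pool.Agent.H29.SL
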