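import Pool.Agent.H29.SL.AN

set_option autoImplicit false

namespace Pool.Agent.H29.SL

theorem pf_T2 (hT1 : T_T1) (hAN : T_AN) (hAE : T_AE) : T_T2 := by
  intro q k n d hk
  have hq5 : 5 ≤ q := by
    have := d.hq4
    have := d.hq.two_le
    omega
  have hn := d.hn
  have hcase : k = 5 ∨ 9 ≤ k := by have := d.hk4; omega
  rcases hcase with rfl | h9
  · -- k = 5
    have hS := S_eq d
    have hSD := d.hSD
    have hA2 : q ≤ 2 * ((q + 1) / 2) := by omega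
    have hWe := (W_eq d).1
    rw [hS] at hSD
    have hW4 : q ^ 4 ≤ 3 * ((q ^ 4 + q ^ 2 + 1) / 3) := by rw [← hWe]; omega
    by_cases hex : ∃ p ∈ n.primeFactors, 7 ≤ p ∧ p ∣ q ^ 4 + q ^ 2 + 1 ∧ d.e p = 3 ∧ d.u p = 1
    · obtain ⟨p0, hp0, h7, hW0, he, hu⟩ := hex
      obtain ⟨h1, h2⟩ := hAE q n p0 d hp0 h7 hW0 he hu
      rw [hWe] at hSD
      set A := (q + 1) / 2 with hA
      set V := (q ^ 4 + q ^ 2 + 1) / 3 with hV
      have h3 : (3 ^ 4 * A * V) ^ 4 ≤ (4 ^ 4 * p0 * q ^ 2 * d.D) ^ 4 := Nat.pow_le_pow_left h2 4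
      have h4 : q ^ 5 ≤ 2 * (A * (3 * V)) := by
        calc q ^ 5 = q * q ^ 4 := by ring
          _ ≤ (2 * A) * (3 * V) := Nat.mul_le_mul hA2 hW4
          _ = _ := by ring
      have h5 : 27 ^ 4 * q ^ 40 ≤ 2 ^ 40 * q ^ 11 * n ^ 8 := by
        calc 27 ^ 4 * q ^ 40 = 27 ^ 4 * (q ^ 5) ^ 8 := by ring
          _ ≤ 27 ^ 4 * (2 * (A * (3 * V))) ^ 8 :=
              Nat.mul_le_mul le_rfl (Nat.pow_le_pow_left h4 8)
          _ = 2 ^ 8 * ((3 ^ 4 * A * V) ^ 4 * (A * (3 * V)) ^ 4) := by ring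
          _ ≤ 2 ^ 8 * ((4 ^ 4 * p0 * q ^ 2 * d.D) ^ 4 * (A * (3 * V)) ^ 4) :=
              Nat.mul_le_mul le_rfl (Nat.mul_le_mul h3 le_rfl)
          _ = 2 ^ 40 * (p0 ^ 4 * q ^ 8) * (A * (3 * V) * d.D) ^ 4 := by ring
          _ ≤ 2 ^ 40 * (q ^ 3 * q ^ 8) * (A * (3 * V) * d.D) ^ 4 := by
              refine Nat.mul_le_mul (Nat.mul_le_mul le_rfl (Nat.mul_le_mul h1.le le_rfl)) le_rfl
          _ = 2 ^ 40 * q ^ 11 * n ^ 8 := by rw [← hSD]; ring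
      have h6 : q ^ 11 * (27 ^ 4 * q ^ 29) ≤ q ^ 11 * (2 ^ 40 * n ^ 8) := by
        calc q ^ 11 * (27 ^ 4 * q ^ 29) = 27 ^ 4 * q ^ 40 := by ring
          _ ≤ 2 ^ 40 * q ^ 11 * n ^ 8 := h5
          _ = _ := by ring
      have h7' : 27 ^ 4 * q ^ 29 ≤ 2 ^ 40 * n ^ 8 :=
        Nat.le_of_mul_le_mul_left h6 (Nat.pos_of_ne_zero (pow_ne_zero _ (by omega)))
      have h8 : 27 ^ 20 * q ^ 144 ≤ 27 ^ 20 * (10 ^ 5 * n ^ 5) ^ 8 := by
        calc 27 ^ 20 * q ^ 144 ≤ 27 ^ 20 * q ^ 145 :=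
              Nat.mul_le_mul le_rfl (Nat.pow_le_pow_right (by omega) (by norm_num))
          _ = (27 ^ 4 * q ^ 29) ^ 5 := by ring
          _ ≤ (2 ^ 40 * n ^ 8) ^ 5 := Nat.pow_le_pow_left h7' 5
          _ = 2 ^ 200 * n ^ 40 := by ring
          _ ≤ (27 ^ 20 * 10 ^ 40) * n ^ 40 := Nat.mul_le_mul (by norm_num) le_rfl
          _ = 27 ^ 20 * (10 ^ 5 * n ^ 5) ^ 8 := by ring
      have h9 : (q ^ 18) ^ 8 ≤ (10 ^ 5 * n ^ 5) ^ 8 := by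
        have := Nat.le_of_mul_le_mul_left h8 (by norm_num)
        calc (q ^ 18) ^ 8 = q ^ 144 := by ring
          _ ≤ _ := this
      exact (Nat.pow_le_pow_iff_left (by norm_num)).1 h9
    · have h1 := hAN q n d (by
        intro p hp h7 hW h
        exact hex ⟨p, hp, h7, hW, h.1, h.2⟩)
      rw [hWe] at hSD
      set A := (q + 1) / 2 with hA
      set V := (q ^ 4 + q ^ 2 + 1) / 3 with hV
      have h8 : 3 ^ 70 * q ^ 72 ≤ 3 ^ 70 * (10 ^ 5 * n ^ 5) ^ 4 := by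
        calc 3 ^ 70 * q ^ 72 = 3 ^ 70 * (q ^ 20 * (q ^ 4) ^ 13) := by ring
          _ ≤ 3 ^ 70 * ((2 * A) ^ 20 * (3 * V) ^ 13) :=
              Nat.mul_le_mul le_rfl (Nat.mul_le_mul (Nat.pow_le_pow_left hA2 20)
                (Nat.pow_le_pow_left hW4 13))
          _ = 2 ^ 20 * 27 * ((3 ^ 70 * A ^ 10 * V ^ 3) * (A * (3 * V)) ^ 10) := by ring
          _ ≤ 2 ^ 20 * 27 * ((684 * 4 ^ 70 * d.D ^ 10) * (A * (3 * V)) ^ 10) :=
              Nat.mul_le_mul le_rfl (Nat.mul_le_mul h1 le_rfl)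
          _ = (2 ^ 20 * 27 * 684 * 4 ^ 70) * (A * (3 * V) * d.D) ^ 10 := by ring
          _ = (2 ^ 20 * 27 * 684 * 4 ^ 70) * (n ^ 2) ^ 10 := by rw [← hSD]
          _ ≤ (3 ^ 70 * 10 ^ 20) * (n ^ 2) ^ 10 := Nat.mul_le_mul (by norm_num) le_rfl
          _ = 3 ^ 70 * (10 ^ 5 * n ^ 5) ^ 4 := by ring
      have h9 : (q ^ 18) ^ 4 ≤ (10 ^ 5 * n ^ 5) ^ 4 := by
        have := Nat.le_of_mul_le_mul_left h8 (by norm_num)
        calc (q ^ 18) ^ 4 = q ^ 72 := by ring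
          _ ≤ _ := this
      exact (Nat.pow_le_pow_iff_left (by norm_num)).1 h9
  · -- k ≥ 9
    have h1 := hT1 q k n d
    obtain ⟨j, hj⟩ := Nat.exists_eq_add_of_le h9
    have h2 : ∀ j : ℕ, 10 + j ≤ 10 * q ^ j := by
      intro j
      induction j with
      | zero => simp
      | succ j ih =>
        rw [pow_succ]
        nlinarith
    have h3 : q ^ j * q ^ 10 ≤ q ^ j * (30 * n ^ 2) := by
      have h4 : q ^ (k + 1) = q ^ j * q ^ 10 := by rw [hj, ← pow_add]; congr 1; omega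
      have h5 : k + 1 = 10 + j := by omega
      rw [h4, h5] at h1
      calc q ^ j * q ^ 10 ≤ 3 * (10 + j) * n ^ 2 := h1
        _ ≤ 3 * (10 * q ^ j) * n ^ 2 := by
            exact Nat.mul_le_mul (Nat.mul_le_mul le_rfl (h2 j)) le_rfl
        _ = q ^ j * (30 * n ^ 2) := by ring
    have h4 : q ^ 10 ≤ 30 * n ^ 2 :=
      Nat.le_of_mul_le_mul_left h3 (Nat.pos_of_ne_zero (pow_ne_zero _ (by omega)))
    have h5 : 30 ^ 5 * q ^ 36 ≤ 30 ^ 5 * (n ^ 5) ^ 2 := by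
      calc 30 ^ 5 * q ^ 36 ≤ 5 ^ 14 * q ^ 36 := Nat.mul_le_mul (by norm_num) le_rfl
        _ ≤ q ^ 14 * q ^ 36 := Nat.mul_le_mul (Nat.pow_le_pow_left hq5 14) le_rfl
        _ = (q ^ 10) ^ 5 := by ring
        _ ≤ (30 * n ^ 2) ^ 5 := Nat.pow_le_pow_left h4 5
        _ = 30 ^ 5 * (n ^ 5) ^ 2 := by ring
    have h6 : (q ^ 18) ^ 2 ≤ (n ^ 5) ^ 2 := by
      have := Nat.le_of_mul_le_mul_left h5 (by norm_num)
      calc (q ^ 18) ^ 2 = q ^ 36 := by ring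
        _ ≤ _ := this
    have h7 : q ^ 18 ≤ n ^ 5 := (Nat.pow_le_pow_iff_left (by norm_num)).1 h6
    calc q ^ 18 ≤ n ^ 5 := h7
      _ = 1 * n ^ 5 := (one_mul _).symm
      _ ≤ 10 ^ 5 * n ^ 5 := Nat.mul_le_mul (by norm_num) le_rfl

end Pool.Agent.H29.SL
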