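import Pool.Agent.H29.SL.AN3

set_option autoImplicit false

namespace Pool.Agent.H29.SL

theorem pf_T3 (hT1 : T_T1) (hAN : T_AN3) (hAE : T_AE3) : T_T3 := by
  intro q k n d hk
  have hq5 : 5 ≤ q := by
    have := d.hq4
    have := d.hq.two_le
    omega
  have hn := d.hn
  have hcase : k = 5 ∨ 9 ≤ k := by have := d.hk4; omega
  rcases hcase with rfl | h9
  · -- k = 5
    have hS := S_eq d
    have hSD := d.hSD
    have hqA : 2 * ((q + 1) / 2) = q + 1 := by have := d.hq4; omega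
    have hWe := (W_eq d).1
    rw [hS] at hSD
    have hW4 : q ^ 4 ≤ 3 * ((q ^ 4 + q ^ 2 + 1) / 3) := by rw [← hWe]; omega
    by_cases hex : ∃ p ∈ n.primeFactors, 7 ≤ p ∧ p ∣ q ^ 4 + q ^ 2 + 1 ∧ d.e p = 3 ∧ d.u p = 1
    · obtain ⟨p0, hp0, h7, hW0, he, hu⟩ := hex
      obtain ⟨h1, h2⟩ := hAE q n p0 d hp0 h7 hW0 he hu
      rw [hWe] at hSD
      set A := (q + 1) / 2 with hA
      set V := (q ^ 4 + q ^ 2 + 1) / 3 with hV
      have hq1 : 5 * (q + 1) ≤ 6 * q := by omega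
      -- 3^32 (A (3V))^16 ≤ 4^32 3^8 p0^8 (q+1)^10 n^16
      have h3 : 3 ^ 32 * (A * (3 * V)) ^ 16 ≤ 4 ^ 32 * 3 ^ 8 * q ^ 6 * (q + 1) ^ 10 * n ^ 16 := by
        calc 3 ^ 32 * (A * (3 * V)) ^ 16
            = 3 ^ 8 * (3 ^ 32 * A ^ 8 * V ^ 8) * (A * (3 * V)) ^ 8 := by ring
          _ ≤ 3 ^ 8 * (4 ^ 32 * p0 ^ 8 * (q + 1) ^ 10 * d.D ^ 8) * (A * (3 * V)) ^ 8 :=
              Nat.mul_le_mul (Nat.mul_le_mul le_rfl h2) le_rfl
          _ = 3 ^ 8 * (4 ^ 32 * (p0 ^ 4) ^ 2 * (q + 1) ^ 10) * (A * (3 * V) * d.D) ^ 8 := by ring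
          _ ≤ 3 ^ 8 * (4 ^ 32 * (q ^ 3) ^ 2 * (q + 1) ^ 10) * (A * (3 * V) * d.D) ^ 8 := by
              refine Nat.mul_le_mul (Nat.mul_le_mul le_rfl (Nat.mul_le_mul
                (Nat.mul_le_mul le_rfl (Nat.pow_le_pow_left h1.le 2)) le_rfl)) le_rfl
          _ = 4 ^ 32 * 3 ^ 8 * q ^ 6 * (q + 1) ^ 10 * n ^ 16 := by rw [← hSD]; ring
      have h4 : (q + 1) ^ 16 * q ^ 64 ≤ 2 ^ 16 * (A * (3 * V)) ^ 16 := by
        calc (q + 1) ^ 16 * q ^ 64 = (q + 1) ^ 16 * (q ^ 4) ^ 16 := by ring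
          _ ≤ (2 * A) ^ 16 * (3 * V) ^ 16 := by
              rw [hqA]
              exact Nat.mul_le_mul le_rfl (Nat.pow_le_pow_left hW4 16)
          _ = _ := by ring
      have h5 : (q ^ 6 * (q + 1) ^ 10) * (3 ^ 32 * (q + 1) ^ 6 * q ^ 58) ≤
          (q ^ 6 * (q + 1) ^ 10) * (2 ^ 16 * 4 ^ 32 * 3 ^ 8 * n ^ 16) := by
        calc (q ^ 6 * (q + 1) ^ 10) * (3 ^ 32 * (q + 1) ^ 6 * q ^ 58)
            = 3 ^ 32 * ((q + 1) ^ 16 * q ^ 64) := by ring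
          _ ≤ 3 ^ 32 * (2 ^ 16 * (A * (3 * V)) ^ 16) := Nat.mul_le_mul le_rfl h4
          _ = 2 ^ 16 * (3 ^ 32 * (A * (3 * V)) ^ 16) := by ring
          _ ≤ 2 ^ 16 * (4 ^ 32 * 3 ^ 8 * q ^ 6 * (q + 1) ^ 10 * n ^ 16) :=
              Nat.mul_le_mul le_rfl h3
          _ = _ := by ring
      have h6 : 3 ^ 32 * (q + 1) ^ 6 * q ^ 58 ≤ 2 ^ 16 * 4 ^ 32 * 3 ^ 8 * n ^ 16 :=
        Nat.le_of_mul_le_mul_left h5 (by positivity)
      have h7' : 3 ^ 32 * (q ^ 15) ^ 4 ≤ 3 ^ 32 * (7 ^ 4 * n ^ 4) ^ 4 := by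
        calc 3 ^ 32 * (q ^ 15) ^ 4 = 3 ^ 32 * (q ^ 2) * q ^ 58 := by ring
          _ ≤ 3 ^ 32 * ((q + 1) ^ 6) * q ^ 58 := by
              refine Nat.mul_le_mul (Nat.mul_le_mul le_rfl ?_) le_rfl
              calc q ^ 2 ≤ (q + 1) ^ 2 := Nat.pow_le_pow_left (by omega) 2
                _ ≤ (q + 1) ^ 6 := Nat.pow_le_pow_right (by omega) (by norm_num)
          _ ≤ 2 ^ 16 * 4 ^ 32 * 3 ^ 8 * n ^ 16 := h6
          _ ≤ (3 ^ 32 * 7 ^ 16) * n ^ 16 := Nat.mul_le_mul (by norm_num) le_rfl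
          _ = 3 ^ 32 * (7 ^ 4 * n ^ 4) ^ 4 := by ring
      have h9 := Nat.le_of_mul_le_mul_left h7' (by norm_num)
      exact (Nat.pow_le_pow_iff_left (by norm_num)).1 h9
    · have h1 := hAN q n d (by
        intro p hp h7 hW h
        exact hex ⟨p, hp, h7, hW, h.1, h.2⟩)
      rw [hWe] at hSD
      set A := (q + 1) / 2 with hA
      set V := (q ^ 4 + q ^ 2 + 1) / 3 with hV
      have hA2 : q ≤ 2 * A := by omega
      have h8 : 3 ^ 56 * (q ^ 15) ^ 4 ≤ 3 ^ 56 * (7 ^ 4 * n ^ 4) ^ 4 := by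
        calc 3 ^ 56 * (q ^ 15) ^ 4 = 3 ^ 56 * (q ^ 16 * (q ^ 4) ^ 11) := by ring
          _ ≤ 3 ^ 56 * ((2 * A) ^ 16 * (3 * V) ^ 11) :=
              Nat.mul_le_mul le_rfl (Nat.mul_le_mul (Nat.pow_le_pow_left hA2 16)
                (Nat.pow_le_pow_left hW4 11))
          _ = 2 ^ 16 * 27 * ((3 ^ 56 * A ^ 8 * V ^ 3) * (A * (3 * V)) ^ 8) := by ring
          _ ≤ 2 ^ 16 * 27 * ((4 ^ 56 * d.D ^ 8) * (A * (3 * V)) ^ 8) :=
              Nat.mul_le_mul le_rfl (Nat.mul_le_mul h1 le_rfl)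
          _ = (2 ^ 16 * 27 * 4 ^ 56) * (A * (3 * V) * d.D) ^ 8 := by ring
          _ = (2 ^ 16 * 27 * 4 ^ 56) * (n ^ 2) ^ 8 := by rw [← hSD]
          _ ≤ (3 ^ 56 * 7 ^ 16) * (n ^ 2) ^ 8 := Nat.mul_le_mul (by norm_num) le_rfl
          _ = 3 ^ 56 * (7 ^ 4 * n ^ 4) ^ 4 := by ring
      have h9 := Nat.le_of_mul_le_mul_left h8 (by norm_num)
      exact (Nat.pow_le_pow_iff_left (by norm_num)).1 h9
  · -- k ≥ 9
    have h1 := hT1 q k n d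
    obtain ⟨j, hj⟩ := Nat.exists_eq_add_of_le h9
    have h2 : ∀ j : ℕ, 10 + j ≤ 10 * q ^ j := by
      intro j
      induction j with
      | zero => simp
      | succ j ih =>
        rw [pow_succ]
        nlinarith
    have h3 : q ^ j * q ^ 10 ≤ q ^ j * (30 * n ^ 2) := by
      have h4 : q ^ (k + 1) = q ^ j * q ^ 10 := by rw [hj, ← pow_add]; congr 1; omega
      have h5 : k + 1 = 10 + j := by omega
      rw [h4, h5] at h1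
      calc q ^ j * q ^ 10 ≤ 3 * (10 + j) * n ^ 2 := h1
        _ ≤ 3 * (10 * q ^ j) * n ^ 2 := by
            exact Nat.mul_le_mul (Nat.mul_le_mul le_rfl (h2 j)) le_rfl
        _ = q ^ j * (30 * n ^ 2) := by ring
    have h4 : q ^ 10 ≤ 30 * n ^ 2 :=
      Nat.le_of_mul_le_mul_left h3 (Nat.pos_of_ne_zero (pow_ne_zero _ (by omega)))
    calc q ^ 15 ≤ q ^ 20 := Nat.pow_le_pow_right (by omega) (by norm_num)
      _ = (q ^ 10) ^ 2 := by ring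
      _ ≤ (30 * n ^ 2) ^ 2 := Nat.pow_le_pow_left h4 2
      _ = 900 * n ^ 4 := by ring
      _ ≤ 7 ^ 4 * n ^ 4 := Nat.mul_le_mul (by norm_num) le_rfl

end Pool.Agent.H29.SL
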