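import Mathlib

/-!
Targets for two theorems on the exponent of the Euler prime (MP_5b3ee2_nt).

`N = q ^ k * n ^ 2` odd perfect, `q` prime, `q % 4 = 1`, `k % 4 = 1`, `q` coprime to `n`.

Theorem 1 (all `k`):  `q ^ (k + 1) ≤ 3 * (k + 1) * n ^ 2`.
Theorem 2 (`k ≠ 1`):  `q ^ 18 ≤ 10 ^ 5 * n ^ 5`.
-/

set_option autoImplicit false

namespace Pool.Agent.H29.SL

/-- `1 + p + ... + p ^ a`, the sum of the divisors of `p ^ a`. -/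
def sg (p a : ℕ) : ℕ := ∑ i ∈ Finset.range (a + 1), p ^ i

/-- `(p - 1) sigma(p ^ a) = p ^ (a + 1) - 1`. -/
theorem sg_mul (p a : ℕ) (hp : 1 ≤ p) : (p - 1) * sg p a + 1 = p ^ (a + 1) := by
  unfold sg
  obtain ⟨x, rfl⟩ : ∃ x, p = x + 1 := ⟨p - 1, by omega⟩
  have h := geom_sum_mul_add x (a + 1)
  simp only [Nat.add_sub_cancel]
  rw [mul_comm]; exact h

/-! ### Stoermer type lemma -/

/-- The sequences of solutions of `Y x ^ 2 - (Y - 1) z ^ 2 = 1`. -/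
def XZ (Y : ℤ) : ℕ → ℤ × ℤ
  | 0 => (1, 1)
  | m + 1 => ((2 * Y - 1) * (XZ Y m).1 + 2 * (Y - 1) * (XZ Y m).2,
      (2 * Y - 1) * (XZ Y m).2 + 2 * Y * (XZ Y m).1)

/-- All solutions. -/
def T_ST1 : Prop := ∀ Y x z : ℤ, 2 ≤ Y → 1 ≤ x → 1 ≤ z → Y * x ^ 2 = (Y - 1) * z ^ 2 + 1 →
  ∃ m : ℕ, XZ Y m = (x, z)

/-- Stoermer: no solution with `x` a power of the prime `p ≥ 5` dividing `Y`. -/
def T_ST : Prop := ∀ p c t y : ℕ, p.Prime → 5 ≤ p → 1 ≤ c → 1 ≤ t →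
  p ^ c * (p ^ t) ^ 2 ≠ (p ^ c - 1) * y ^ 2 + 1

/-! ### The cubic lemma: small multiples of `p - 1` that are primitive cube or sixth roots
of unity modulo `p ^ c`. -/

/-- Case `c = 1`. -/
def T_LA : Prop := ∀ p u X : ℕ, p.Prime → 7 ≤ p → X = (p - 1) * u →
  (p ∣ X ^ 2 + X + 1 ∨ p ∣ X ^ 2 + 1 - X) → p ^ 3 ≤ u ^ 10

/-- Case `c = 2`. -/
def T_LB : Prop := ∀ p u X : ℕ, p.Prime → 7 ≤ p → X = (p - 1) * u →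
  (p ^ 2 ∣ X ^ 2 + X + 1 ∨ p ^ 2 ∣ X ^ 2 + 1 - X) →
  p ^ 6 ≤ 684 * u ^ 10 ∧ (p ≠ 7 → p ^ 6 ≤ u ^ 10)

/-- Case `c = 3`. -/
def T_LC : Prop := ∀ p u X : ℕ, p.Prime → 7 ≤ p → X = (p - 1) * u →
  (p ^ 3 ∣ X ^ 2 + X + 1 ∨ p ^ 3 ∣ X ^ 2 + 1 - X) →
  p ^ 9 ≤ 684 * u ^ 10 ∧ (p ≠ 7 → p ^ 9 ≤ u ^ 10)

/-- Case `c ≥ 4`. -/
def T_LD : Prop := ∀ p c u X : ℕ, p.Prime → 7 ≤ p → 4 ≤ c → X = (p - 1) * u →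
  (p ^ c ∣ X ^ 2 + X + 1 ∨ p ^ c ∣ X ^ 2 + 1 - X) → p ^ (3 * c) ≤ u ^ 10

/-- The cubic lemma. -/
def T_L2 : Prop := ∀ p c u X : ℕ, p.Prime → 7 ≤ p → 1 ≤ c → X = (p - 1) * u →
  p ^ c ∣ X ^ 4 + X ^ 2 + 1 →
  p ^ (3 * c) ≤ 684 * u ^ 10 ∧ (p ≠ 7 → p ^ (3 * c) ≤ u ^ 10)

/-! ### Local bounds -/

/-- `p0 ^ 2 + p0 + 1 = q ^ 3` is impossible if `p0` divides `q ^ 2 + q + 1` or `q ^ 2 - q + 1`. -/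
def T_EX : Prop := ∀ p q : ℕ, p.Prime → 7 ≤ p → 5 ≤ q → p ∣ q ^ 4 + q ^ 2 + 1 →
  p ^ 2 + p + 1 ≠ q ^ 3

/-- Class I: `p ^ c ∣ q + 1`. -/
def T_CI : Prop := ∀ p q c a e u : ℕ, p.Prime → 3 ≤ p → 1 ≤ c → c ≤ a → Even a →
  p ^ c ∣ q + 1 → q ^ e * u = sg p a →
  (p ≠ 3 → 3 ^ e * p ^ c ≤ 4 ^ e * u) ∧ (p = 3 → 3 ^ (e + 2) * p ^ c ≤ 4 ^ (e + 2) * u)

/-- Class II: `p ^ c ∣ q ^ 4 + q ^ 2 + 1`, `p ≥ 7`. -/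
def T_CII : Prop := ∀ p q c a e u : ℕ, p.Prime → 7 ≤ p → 1 ≤ c → c ≤ a → 1 ≤ u → e ≤ 5 →
  p ^ c ∣ q ^ 4 + q ^ 2 + 1 → q ^ e * u = sg p a →
  (c = 1 ∧ e = 3 ∧ u = 1) ∨
    (p ^ (3 * c) ≤ 684 * u ^ 10 ∧ (p ≠ 7 → p ^ (3 * c) ≤ u ^ 10))

/-! ### Setup: the data of an odd perfect number in Eulerian form. -/

/-- The data: `S`, `D`, and for every prime `p ∣ n` the exponent `a p` of `p` in `n ^ 2` and the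
factorization `sigma(p ^ (a p)) = q ^ (e p) * u p` with `q` not dividing `u p`. -/
structure Dat (q k n : ℕ) where
  S : ℕ
  D : ℕ
  a : ℕ → ℕ
  e : ℕ → ℕ
  u : ℕ → ℕ
  hq : q.Prime
  hq4 : q % 4 = 1
  hk4 : k % 4 = 1
  hn : n ≠ 0
  hcop : Nat.Coprime q n
  hodd : Odd n
  /-- `sigma(q ^ k) = 2 S` -/
  hS : sg q k = 2 * S
  /-- `n ^ 2 = S D` -/
  hSD : n ^ 2 = S * D
  ha : ∀ p, a p = (n ^ 2).factorization p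
  haeven : ∀ p, Even (a p)
  hue : ∀ p ∈ n.primeFactors, q ^ e p * u p = sg p (a p)
  huq : ∀ p ∈ n.primeFactors, ¬ q ∣ u p
  huodd : ∀ p ∈ n.primeFactors, Odd (u p)
  hsum : ∑ p ∈ n.primeFactors, e p = k
  hprod : ∏ p ∈ n.primeFactors, u p = D

/-- Every odd perfect number in Eulerian form gives the data. -/
def T_SET : Prop := ∀ q k n : ℕ, q.Prime → q % 4 = 1 → k % 4 = 1 → Nat.Coprime q n →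
  Odd (q ^ k * n ^ 2) → Nat.Perfect (q ^ k * n ^ 2) → Nonempty (Dat q k n)

/-! ### Theorem 1 -/

def T_T1 : Prop := ∀ q k n : ℕ, Dat q k n → q ^ (k + 1) ≤ 3 * (k + 1) * n ^ 2

/-! ### Theorem 2 -/

/-- Non-exceptional case of `k = 5`. -/
def T_AN : Prop := ∀ (q n : ℕ) (d : Dat q 5 n),
  (∀ p ∈ n.primeFactors, 7 ≤ p → p ∣ q ^ 4 + q ^ 2 + 1 → ¬ (d.e p = 3 ∧ d.u p = 1)) →
  3 ^ 70 * ((q + 1) / 2) ^ 10 * ((q ^ 4 + q ^ 2 + 1) / 3) ^ 3 ≤ 684 * 4 ^ 70 * d.D ^ 10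

/-- Exceptional case of `k = 5`. -/
def T_AE : Prop := ∀ (q n p0 : ℕ) (d : Dat q 5 n), p0 ∈ n.primeFactors → 7 ≤ p0 →
  p0 ∣ q ^ 4 + q ^ 2 + 1 → d.e p0 = 3 → d.u p0 = 1 →
  p0 ^ 4 < q ^ 3 ∧
  3 ^ 4 * ((q + 1) / 2) * ((q ^ 4 + q ^ 2 + 1) / 3) ≤ 4 ^ 4 * p0 * q ^ 2 * d.D

def T_T2 : Prop := ∀ q k n : ℕ, Dat q k n → k ≠ 1 → q ^ 18 ≤ 10 ^ 5 * n ^ 5

end Pool.Agent.H29.SL
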